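import Mathlib

/-!
# MP_3a2b62, Q2: flows and their attractors (definitions)
-/

set_option autoImplicit false

open scoped Topology
open Filter Set MeasureTheory

universe u

namespace Pool.Agent.V5helper25.PB

/-- A continuous flow. -/
structure FlowOn (N : Type u) [TopologicalSpace N] (φ : ℝ → N → N) : Prop where
  cont : Continuous fun q : ℝ × N => φ q.1 q.2
  zero : ∀ y, φ 0 y = y
  add : ∀ (s t : ℝ) (y : N), φ (s + t) y = φ s (φ t y)

section defs

variable {N : Type u} [TopologicalSpace N]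

/-- The `ω`-limit set of the point `p` under the flow. -/
def omegaF (φ : ℝ → N → N) (p : N) : Set N :=
  {q | ∀ U ∈ 𝓝 q, ∀ T : ℝ, ∃ t : ℝ, T ≤ t ∧ φ t p ∈ U}

/-- `Λ` is an attractor of the flow: it is invariant, it contains a point whose forward orbit is
dense in `Λ`, and its basin has positive measure. -/
def IsAttractorF [MeasurableSpace N] (μ : Measure N) (φ : ℝ → N → N) (Λ : Set N) : Prop :=
  (∀ t, φ t '' Λ = Λ) ∧ (∃ x ∈ Λ, Λ ⊆ closure {y | ∃ t : ℝ, 0 ≤ t ∧ y = φ t x}) ∧
    0 < μ {p | omegaF φ p ⊆ Λ}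

/-- The flow has finitely many attractors covering the space. -/
def FiniteAttractorsF [MeasurableSpace N] (μ : Measure N) (φ : ℝ → N → N) : Prop :=
  ∃ (m : ℕ) (Λ : Fin m → Set N), (∀ i, IsAttractorF μ φ (Λ i)) ∧
    μ {p | ∀ i, ¬ omegaF φ p ⊆ Λ i} = 0

end defs

end Pool.Agent.V5helper25.PB
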