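import Pool.Agent.V5helper25.PB.Fou
import Pool.Agent.V5helper25.PB.FDef

/-!
# Time maps of ergodic flows (Pugh and Shub)
-/

set_option autoImplicit false
set_option linter.unusedSectionVars false
set_option linter.unusedVariables false

open scoped Topology ENNReal Real
open MeasureTheory Filter Set Metric

universe v

namespace Pool.Agent.V5helper25.PB

/-- The measure `m` is invariant and ergodic for the flow `β`. -/
structure ErgFlow {B : Type v} [MeasurableSpace B] (β : ℝ → B → B) (m : Measure B) : Prop where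
  pres : ∀ t, MeasurePreserving (β t) m m
  erg : ∀ S : Set B, MeasurableSet S → (∀ t, β t ⁻¹' S = S) → m S = 0 ∨ m Sᶜ = 0

section

variable {B : Type v} [MeasurableSpace B] {β : ℝ → B → B} {m : Measure B}

/-- `l` is an eigenvalue of the flow -/
def IsEig (β : ℝ → B → B) (m : Measure B) (l : ℝ) : Prop :=
  ∃ u : B → ℂ, Measurable u ∧ (∃ C : ℝ, ∀ x, ‖u x‖ ≤ C) ∧ ¬ (u =ᵐ[m] fun _ => 0) ∧
    ∀ s x, u (β s x) = ch l s * u x

/-- the eigenvalues are countable -/
theorem eig_countable [MeasurableSpace.CountablyGenerated B] [IsFiniteMeasure m]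
    (pres : ∀ t, MeasurePreserving (β t) m m) : {l : ℝ | IsEig β m l}.Countable := by
  classical
  choose! u hu1 hu2 hu3 hu4 using fun (l : ℝ) (hl : l ∈ {l : ℝ | IsEig β m l}) => hl
  have hL : ∀ l, l ∈ {l : ℝ | IsEig β m l} → MemLp (u l) 2 m := fun l hl => by
    obtain ⟨C, hC⟩ := hu2 l hl
    exact MemLp.of_bound (hu1 l hl).aestronglyMeasurable C (Eventually.of_forall hC)
  have hLx : ∀ l, ∃ v : Lp ℂ 2 m, l ∈ {l : ℝ | IsEig β m l} → (v : B → ℂ) =ᵐ[m] u l := fun l => by
    by_cases hl : l ∈ {l : ℝ | IsEig β m l}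
    · exact ⟨(hL l hl).toLp, fun _ => (hL l hl).coeFn_toLp⟩
    · exact ⟨0, fun h => absurd h hl⟩
  choose v hv using hLx
  have hv0 : ∀ l ∈ {l : ℝ | IsEig β m l}, v l ≠ 0 := by
    intro l hl h
    refine hu3 l hl ?_
    filter_upwards [hv l hl, Lp.coeFn_zero ℂ 2 m] with x h1 h2
    rw [← h1, h, h2]
    rfl
  have horth : ∀ l ∈ {l : ℝ | IsEig β m l}, ∀ l' ∈ {l : ℝ | IsEig β m l}, l ≠ l' →
      inner ℂ (v l) (v l') = 0 := by
    intro l hl l' hl' hne
    have e1 : inner ℂ (v l) (v l') = ∫ x, inner ℂ (u l x) (u l' x) ∂m := by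
      rw [L2.inner_def]
      refine integral_congr_ae ?_
      filter_upwards [hv l hl, hv l' hl'] with x h1 h2
      rw [h1, h2]
    have e2 : ∀ s, ∫ x, inner ℂ (u l x) (u l' x) ∂m = ∫ x, inner ℂ (u l (β s x)) (u l' (β s x)) ∂m := by
      intro s
      have hmeas : AEStronglyMeasurable (fun x => inner ℂ (u l x) (u l' x)) (m.map (β s)) := by
        rw [(pres s).map_eq]
        exact ((hu1 l hl).inner (hu1 l' hl')).aestronglyMeasurable
      have h3 := integral_map (pres s).measurable.aemeasurable hmeas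
      rw [(pres s).map_eq] at h3
      exact h3
    have e3 : ∀ s, ∫ x, inner ℂ (u l (β s x)) (u l' (β s x)) ∂m =
        (starRingEnd ℂ (ch l s) * ch l' s) * ∫ x, inner ℂ (u l x) (u l' x) ∂m := by
      intro s
      rw [← integral_const_mul]
      refine integral_congr_ae (Eventually.of_forall fun x => ?_)
      simp only [hu4 l hl, hu4 l' hl', RCLike.inner_apply, map_mul]
      ring
    have e4 : starRingEnd ℂ (ch l (π / (l' - l))) * ch l' (π / (l' - l)) = -1 := by
      have h1 : starRingEnd ℂ (ch l (π / (l' - l))) =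
          Complex.exp (((-(l * (π / (l' - l))) : ℝ) : ℂ) * Complex.I) := by
        rw [ch, ← Complex.exp_conj, map_mul, Complex.conj_ofReal, Complex.conj_I]
        congr 1
        push_cast
        ring
      rw [h1, ch, ← Complex.exp_add, ← add_mul, ← Complex.ofReal_add]
      have h2 : -(l * (π / (l' - l))) + l' * (π / (l' - l)) = π := by
        have : l' - l ≠ 0 := sub_ne_zero.2 hne.symm
        field_simp
        ring
      rw [h2, Complex.exp_pi_mul_I]
    have e5 := (e2 (π / (l' - l))).trans (e3 (π / (l' - l)))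
    rw [e4] at e5
    rw [e1]
    have e6 : (2 : ℂ) * ∫ x, inner ℂ (u l x) (u l' x) ∂m = 0 := by
      linear_combination e5
    exact (mul_eq_zero.1 e6).resolve_left two_ne_zero
  -- pairwise distant points
  set w : ℝ → Lp ℂ 2 m := fun l => ((‖v l‖⁻¹ : ℝ) : ℂ) • v l with hw
  have hwn : ∀ l ∈ {l : ℝ | IsEig β m l}, ‖w l‖ = 1 := by
    intro l hl
    have h1 : ‖v l‖ ≠ 0 := norm_ne_zero_iff.2 (hv0 l hl)
    rw [hw, norm_smul, Complex.norm_real, norm_inv, norm_norm, inv_mul_cancel₀ h1]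
  have hdist : ∀ l ∈ {l : ℝ | IsEig β m l}, ∀ l' ∈ {l : ℝ | IsEig β m l}, l ≠ l' →
      1 ≤ dist (w l) (w l') := by
    intro l hl l' hl' hne
    have h1 : inner ℂ (w l) (w l') = 0 := by
      rw [hw, inner_smul_left, inner_smul_right, horth l hl l' hl' hne]
      simp
    have h2 := norm_sub_sq (𝕜 := ℂ) (w l) (w l')
    rw [h1, hwn l hl, hwn l' hl'] at h2
    rw [dist_eq_norm]
    have h3 : ‖w l - w l'‖ ^ 2 = 2 := by
      rw [h2]
      simp
      norm_num
    nlinarith [norm_nonneg (w l - w l')]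
  have : Fact ((2 : ℝ≥0∞) ≠ ∞) := ⟨by norm_num⟩
  have : SecondCountableTopology (Lp ℂ 2 m) := inferInstance
  refine Set.PairwiseDisjoint.countable_of_isOpen (s := fun l => ball (w l) (1 / 2)) ?_
    (fun l _ => isOpen_ball) (fun l _ => ⟨w l, mem_ball_self (by norm_num)⟩)
  intro l hl l' hl' hne
  refine ball_disjoint_ball ?_
  have := hdist l hl l' hl' hne
  linarith

end

section

variable {B : Type v} [TopologicalSpace B] [SecondCountableTopology B] [MeasurableSpace B]
  [BorelSpace B] {β : ℝ → B → B} {m : Measure B}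

/-- the Fourier coefficients along the orbits -/
noncomputable def Fc (β : ℝ → B → B) (S : Set B) (τ l : ℝ) (x : B) : ℂ :=
  ∫ t in (0 : ℝ)..τ, ch (-l) t * S.indicator (fun _ => (1 : ℂ)) (β t x)

theorem Fc_eq (hβ : FlowOn B β) {S : Set B} {τ : ℝ} (hS : β τ ⁻¹' S = S) {l : ℝ}
    (hl : ch l τ = 1) (s : ℝ) (x : B) : Fc β S τ l (β s x) = ch l s * Fc β S τ l x := by
  set h : ℝ → ℂ := fun t => ch (-l) t * S.indicator (fun _ => (1 : ℂ)) (β t x) with hh
  have hl' : ch (-l) τ = 1 := by
    have : ch l τ * ch (-l) τ = 1 := by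
      rw [ch, ch, ← Complex.exp_add]
      have : ((l * τ : ℝ) : ℂ) * Complex.I + ((-l * τ : ℝ) : ℂ) * Complex.I = 0 := by
        push_cast; ring
      rw [this, Complex.exp_zero]
    rwa [hl, one_mul] at this
  have hper : Function.Periodic h τ := by
    intro t
    show ch (-l) (t + τ) * S.indicator (fun _ => (1 : ℂ)) (β (t + τ) x) = _
    rw [ch_add, hl', mul_one, add_comm t τ, hβ.add]
    show _ = ch (-l) t * S.indicator (fun _ => (1 : ℂ)) (β t x)
    congr 1
    have : β τ (β t x) ∈ S ↔ β t x ∈ S := by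
      rw [← mem_preimage, hS]
    by_cases h1 : β t x ∈ S
    · rw [indicator_of_mem h1, indicator_of_mem (this.2 h1)]
    · rw [indicator_of_notMem h1, indicator_of_notMem (fun h2 => h1 (this.1 h2))]
  have e1 : ∀ t, ch (-l) t * S.indicator (fun _ => (1 : ℂ)) (β t (β s x)) = ch l s * h (t + s) := by
    intro t
    rw [hh, ← hβ.add]
    show _ = ch l s * (ch (-l) (t + s) * S.indicator (fun _ => (1 : ℂ)) (β (t + s) x))
    rw [ch_add (-l) t s]
    have : ch l s * ch (-l) s = 1 := by
      rw [ch, ch, ← Complex.exp_add]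
      have : ((l * s : ℝ) : ℂ) * Complex.I + ((-l * s : ℝ) : ℂ) * Complex.I = 0 := by
        push_cast; ring
      rw [this, Complex.exp_zero]
    linear_combination (-(ch (-l) t * S.indicator (fun _ => (1 : ℂ)) (β (t + s) x))) * this
  show (∫ t in (0 : ℝ)..τ, ch (-l) t * S.indicator (fun _ => (1 : ℂ)) (β t (β s x))) = _
  simp only [e1]
  rw [intervalIntegral.integral_const_mul, intervalIntegral.integral_comp_add_right h s, zero_add,
    add_comm τ s, hper.intervalIntegral_add_eq s 0, zero_add]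
  rfl

theorem w_meas (hβ : FlowOn B β) {S : Set B} (hS : MeasurableSet S) :
    Measurable fun q : B × ℝ => S.indicator (fun _ => (1 : ℂ)) (β q.2 q.1) := by
  have h1 : Measurable fun q : B × ℝ => β q.2 q.1 :=
    (hβ.cont.comp (continuous_snd.prodMk continuous_fst)).measurable
  exact (measurable_const.indicator hS).comp h1

theorem Fc_meas (hβ : FlowOn B β) {S : Set B} (hS : MeasurableSet S) {τ : ℝ} (hτ : 0 ≤ τ) (l : ℝ) :
    Measurable (Fc β S τ l) := by
  have h1 : StronglyMeasurable fun q : B × ℝ => ch (-l) q.2 * S.indicator (fun _ => (1 : ℂ)) (β q.2 q.1) :=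
    (((ch_cont (-l)).measurable.comp measurable_snd).mul (w_meas hβ hS)).stronglyMeasurable
  have h2 : StronglyMeasurable fun x : B => ∫ t, ch (-l) t * S.indicator (fun _ => (1 : ℂ)) (β t x)
      ∂(volume.restrict (Ioc 0 τ)) := h1.integral_prod_right
  have e : Fc β S τ l = fun x : B => ∫ t, ch (-l) t * S.indicator (fun _ => (1 : ℂ)) (β t x)
      ∂(volume.restrict (Ioc 0 τ)) := by
    funext x
    exact intervalIntegral.integral_of_le hτ
  rw [e]
  exact h2.measurable

theorem ind_bd (S : Set B) (y : B) : ‖S.indicator (fun _ => (1 : ℂ)) y‖ ≤ 1 := by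
  by_cases h : y ∈ S
  · rw [indicator_of_mem h]; simp
  · rw [indicator_of_notMem h]; simp

theorem Fc_bd (S : Set B) {τ : ℝ} (l : ℝ) (x : B) : ‖Fc β S τ l x‖ ≤ 1 * |τ - 0| := by
  refine intervalIntegral.norm_integral_le_of_norm_le_const fun t _ => ?_
  rw [norm_mul, ch_norm, one_mul]
  exact ind_bd S _

/-- a time map which is not ergodic gives an eigenvalue -/
theorem exists_eig (hβ : FlowOn B β) [IsProbabilityMeasure m] (erg : ErgFlow β m) {τ : ℝ}
    (hτ : 0 < τ) (hn : ¬ Ergodic (β τ) m) : ∃ k : ℤ, k ≠ 0 ∧ IsEig β m (2 * π * k / τ) := by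
  by_contra hcon
  push Not at hcon
  refine hn ⟨erg.pres τ, ⟨fun S hS hinv => ?_⟩⟩
  have h0 : ∀ k : ℤ, k ≠ 0 → ∀ᵐ x ∂m, Fc β S τ (2 * π * k / τ) x = 0 := by
    intro k hk
    by_contra h
    refine hcon k hk ⟨Fc β S τ (2 * π * k / τ), Fc_meas hβ hS hτ.le _, ⟨_, fun x => Fc_bd S _ x⟩, h,
      fun s x => Fc_eq hβ hinv (ch_per hτ.ne' k) s x⟩
  have h1 : ∀ᵐ x ∂m, ∀ k : ℤ, k ≠ 0 → Fc β S τ (2 * π * k / τ) x = 0 :=
    ae_all_iff.2 fun k => by
      by_cases hk : k = 0
      · exact Eventually.of_forall fun x h => absurd hk h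
      · filter_upwards [h0 k hk] with x hx _ using hx
  -- the orbits are almost surely contained in the set or in the complement
  have h2 : ∀ᵐ x ∂m, ∃ c : ℂ, ∀ᵐ t ∂(volume.restrict (Ioc 0 τ)),
      S.indicator (fun _ => (1 : ℂ)) (β t x) = c := by
    filter_upwards [h1] with x hx
    refine fou_unique hτ ?_ (fun t => ind_bd S _) (fun k hk => hx k hk)
    exact (w_meas hβ hS).comp (measurable_const.prodMk measurable_id)
  -- the invariant set of points whose orbits spend all the time in `S`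
  set E : Set B := {x | Fc β S τ 0 x = (τ : ℂ)} with hE
  have hEm : MeasurableSet E := (Fc_meas hβ hS hτ.le 0) (measurableSet_singleton (τ : ℂ))
  have hEi : ∀ t, β t ⁻¹' E = E := by
    intro t
    ext x
    show Fc β S τ 0 (β t x) = (τ : ℂ) ↔ Fc β S τ 0 x = (τ : ℂ)
    rw [Fc_eq hβ hinv (l := 0) (by simp [ch]) t x]
    have : ch 0 t = 1 := by simp [ch]
    rw [this, one_mul]
  have hne : (ae (volume.restrict (Ioc (0 : ℝ) τ))).NeBot := by
    rw [ae_neBot]
    intro h
    have h3 := congrArg (fun μ : Measure ℝ => μ univ) h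
    simp [hτ.not_ge] at h3
  have hset : MeasurableSet {q : B × ℝ | β q.2 q.1 ∈ S} :=
    ((hβ.cont.comp (continuous_snd.prodMk continuous_fst)).measurable) hS
  have hFc : ∀ x, ∀ c : ℂ, (∀ᵐ t ∂(volume.restrict (Ioc 0 τ)),
      S.indicator (fun _ => (1 : ℂ)) (β t x) = c) → Fc β S τ 0 x = τ * c := by
    intro x c hc
    have h3 : Fc β S τ 0 x = ∫ t in Ioc 0 τ, c := by
      show (∫ t in (0 : ℝ)..τ, ch (-0) t * S.indicator (fun _ => (1 : ℂ)) (β t x)) = _
      rw [intervalIntegral.integral_of_le hτ.le]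
      refine integral_congr_ae ?_
      filter_upwards [hc] with t ht
      rw [ht]
      simp [ch]
    rw [h3, setIntegral_const]
    simp [hτ.le]
  rcases erg.erg E hEm hEi with hE0 | hE0
  · -- almost no orbit stays in `S`
    have h3 : ∀ᵐ x ∂m, ∀ᵐ t ∂(volume.restrict (Ioc 0 τ)), β t x ∉ S := by
      have h4 : ∀ᵐ x ∂m, x ∉ E := measure_eq_zero_iff_ae_notMem.1 hE0
      filter_upwards [h2, h4] with x ⟨c, hc⟩ hx
      filter_upwards [hc] with t ht hts
      rw [indicator_of_mem hts] at ht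
      refine hx ?_
      show Fc β S τ 0 x = (τ : ℂ)
      rw [hFc x c hc, ← ht, mul_one]
    have h4 := (Measure.ae_ae_comm (p := fun x t => β t x ∉ S) hset.compl).1 h3
    obtain ⟨t, ht⟩ := h4.exists
    have h5 : m (β t ⁻¹' S) = 0 := measure_eq_zero_iff_ae_notMem.2 ht
    rw [(erg.pres t).measure_preimage hS.nullMeasurableSet] at h5
    rw [eventuallyConst_set']
    exact Or.inl (ae_eq_empty.2 h5)
  · have h3 : ∀ᵐ x ∂m, ∀ᵐ t ∂(volume.restrict (Ioc 0 τ)), β t x ∈ S := by
      have h4 : ∀ᵐ x ∂m, x ∈ E := by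
        filter_upwards [measure_eq_zero_iff_ae_notMem.1 hE0] with x hx
        exact not_not.1 hx
      filter_upwards [h2, h4] with x ⟨c, hc⟩ hx
      have h5 : (τ : ℂ) * c = τ := by
        rw [← hFc x c hc]
        exact hx
      have hτ' : (τ : ℂ) ≠ 0 := by exact_mod_cast hτ.ne'
      have h6 : c = 1 := by
        refine mul_left_cancel₀ hτ' ?_
        rw [h5, mul_one]
      filter_upwards [hc] with t ht
      by_contra hts
      rw [indicator_of_notMem hts, h6] at ht
      exact zero_ne_one ht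
    have h4 := (Measure.ae_ae_comm (p := fun x t => β t x ∈ S) hset).1 h3
    obtain ⟨t, ht⟩ := h4.exists
    have h5 : m (β t ⁻¹' Sᶜ) = 0 := by
      refine measure_eq_zero_iff_ae_notMem.2 ?_
      filter_upwards [ht] with x hx hx2
      exact hx2 hx
    rw [(erg.pres t).measure_preimage hS.compl.nullMeasurableSet] at h5
    rw [eventuallyConst_set']
    exact Or.inr (ae_eq_univ.2 h5)

/-- **Pugh and Shub.** All but countably many time maps of an ergodic flow are ergodic. -/
theorem time_countable (hβ : FlowOn B β) [IsProbabilityMeasure m] (erg : ErgFlow β m) :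
    {τ : ℝ | 0 < τ ∧ ¬ Ergodic (β τ) m}.Countable := by
  have h1 : {l : ℝ | IsEig β m l}.Countable := eig_countable erg.pres
  have h2 : {τ : ℝ | 0 < τ ∧ ¬ Ergodic (β τ) m} ⊆
      ⋃ k : ℤ, (fun l : ℝ => 2 * π * k / l) '' {l : ℝ | IsEig β m l} := by
    rintro τ ⟨hτ, hn⟩
    obtain ⟨k, hk, he⟩ := exists_eig hβ erg hτ hn
    refine mem_iUnion.2 ⟨k, 2 * π * k / τ, he, ?_⟩
    show 2 * π * k / (2 * π * k / τ) = τ
    have hk' : (k : ℝ) ≠ 0 := by exact_mod_cast hk
    have : (2 * π * k : ℝ) ≠ 0 := by positivity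
    field_simp
  exact (countable_iUnion fun k => h1.image _).mono h2

end

end Pool.Agent.V5helper25.PB
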