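import Pool.Agent.V5helper25.PB.Cmp
import Pool.Agent.V5helper25.PB.PS

/-!
# MP_3a2b62, Q2: vector fields on manifolds
-/

set_option autoImplicit false
set_option linter.unusedSectionVars false
set_option linter.unusedVariables false

open scoped Manifold ContDiff Topology
open MeasureTheory Filter Set Metric

universe u v

namespace Pool.Agent.V5helper25.PB

open Pool.Agent.H718R2.G Pool.Agent.W564.SC Pool.Agent.N813.CX Pool.Agent.H728R2.FA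
  Pool.Agent.TH290.CL

/-! ## Topological version -/

/-- `π : N → B` is the projection onto the space of the orbits of `ψ`, and `β` is the flow on `B`
induced by `φ`. -/
structure OrbitFlow {N : Type u} [TopologicalSpace N] {B : Type v} [TopologicalSpace B]
    (φ ψ : ℝ → N → N) (π : N → B) (β : ℝ → B → B) : Prop where
  flow : FlowOn B β
  cont : Continuous π
  surj : Function.Surjective π
  eq : ∀ x y, π x = π y ↔ ∃ t, y = ψ t x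
  semi : ∀ t x, π (φ t x) = β t (π x)

section

variable {N : Type u} [MetricSpace N] [CompactSpace N] [MeasurableSpace N] [BorelSpace N]
  {B : Type v} [MetricSpace B] [MeasurableSpace B] [BorelSpace B]
  {φ ψ : ℝ → N → N} {g g' : N → ℝ} {π : N → B} {β : ℝ → B → B}
  {μ : Measure N} [IsFiniteMeasure μ]

theorem flowsTop (h : FieldExt N φ ψ g g') (ho : OrbitFlow φ ψ π β) {ι : Type} [Fintype ι]
    {m : ι → Measure B} (hm : ∀ i, IsProbabilityMeasure (m i)) (erg : ∀ i, ErgFlow β (m i))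
    (hq : ∀ t, μ.map (ψ t) ≪ μ) (h1 : μ.map π ≪ Measure.sum m) (h2 : ∀ i, m i ≪ μ.map π) :
    ∀ᶠ s in residual ℝ, FiniteAttractorsF μ (Ph h s) := by
  have hCB : CompactSpace B := ⟨by rw [← ho.surj.range_eq]; exact isCompact_range ho.cont⟩
  have hc : (⋃ i, {τ : ℝ | 0 < τ ∧ ¬ Ergodic (β τ) (m i)}).Countable :=
    countable_iUnion fun i => by
      have := hm i
      exact time_countable ho.flow (erg i)
  obtain ⟨τ, hτ, hτn⟩ := (hc.dense_compl ℝ).inter_open_nonempty (Ioi 0) isOpen_Ioi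
    ⟨1, mem_Ioi.2 one_pos⟩
  have hτ0 : 0 < τ := hτ
  have herg : ∀ i, Ergodic (β τ) (m i) := fun i => by
    by_contra hcon
    exact hτn (mem_iUnion.2 ⟨i, hτ0, hcon⟩)
  obtain ⟨c, L, hM⟩ := exists_mfam h hτ0
  have hO : OrbitMap ((Ph_flow h 0).homeo τ) ψ π (β τ) :=
    ⟨ho.cont, ho.surj, ho.eq, fun x => by
      show π (ψ _ (φ τ x)) = β τ (π x)
      rw [← ho.semi]
      exact ((ho.eq _ _).2 ⟨_, rfl⟩).symm⟩
  have key := mostK hM hO hm herg hq h1 h2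
  filter_upwards [key] with s hs
  have e : Fs ((Ph_flow h 0).homeo τ) ψ (Af h τ) s = Ph h s τ := Fs_Ph h τ s
  rw [e] at hs
  exact flow_of_time (Ph_flow h s) hτ0 hs

end

/-! ## Manifolds -/

/-- `Φ` is the flow of the field `X`. -/
def IsFlowOf {n : ℕ} {N : Type u} [TopologicalSpace N] [ChartedSpace (V n) N]
    (X : ∀ y : N, TangentSpace (𝓡 n) y) (Φ : ℝ → N → N) : Prop :=
  FlowOn N Φ ∧ ∀ y, IsMIntegralCurve (I := 𝓡 n) (fun t => Φ t y) X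

section

variable {n : ℕ} {N : Type u} [TopologicalSpace N] [ChartedSpace (V n) N]
  [IsManifold (𝓡 n) ∞ N]

/-- partial derivatives of `C^1` families of functions -/
theorem partR {k : ℝ → N → ℝ}
    (hk : ContMDiff (𝓘(ℝ, ℝ).prod (𝓡 n)) 𝓘(ℝ, ℝ) 1 (fun q : ℝ × N => k q.1 q.2)) :
    ∃ D : N → ℝ, Continuous D ∧ ∀ y, HasDerivAt (fun s => k s y) (D y) 0 := by
  have key : ∀ y₀ : N, ∃ D : N → ℝ, ContinuousAt D y₀ ∧ ∀ᶠ y in 𝓝 y₀,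
      HasDerivAt (fun s => k s y) (D y) 0 := by
    intro y₀
    set φ := chartAt (V n) y₀ with hφ
    set G : ℝ × V n → ℝ := fun q => k q.1 (φ.symm q.2) with hG
    have hy₀ : y₀ ∈ φ.source := mem_chart_source _ _
    have hGd : ContDiffAt ℝ 1 G (0, φ y₀) := by
      rw [← contMDiffAt_iff_contDiffAt]
      have h1 : ContMDiffAt 𝓘(ℝ, ℝ × V n) 𝓘(ℝ, ℝ) 1 (fun q : ℝ × V n => q.1) (0, φ y₀) :=
        contDiffAt_fst.contMDiffAt
      have h2 : ContMDiffAt 𝓘(ℝ, ℝ × V n) (𝓡 n) 1 (fun q : ℝ × V n => q.2) (0, φ y₀) :=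
        contDiffAt_snd.contMDiffAt
      have h3 : ContMDiffAt (𝓡 n) (𝓡 n) 1 φ.symm (φ y₀) := by
        have h4 : ContMDiffOn (𝓡 n) (𝓡 n) ∞ φ.symm φ.target :=
          contMDiffOn_symm_of_mem_maximalAtlas (IsManifold.chart_mem_maximalAtlas y₀)
        exact (h4.contMDiffAt (φ.open_target.mem_nhds (φ.map_source hy₀))).of_le (by norm_cast)
      have h5 : ContMDiffAt 𝓘(ℝ, ℝ × V n) (𝓡 n) 1 (fun q : ℝ × V n => φ.symm q.2) (0, φ y₀) :=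
        ContMDiffAt.comp (g := φ.symm) (f := fun q : ℝ × V n => q.2) _ h3 h2
      have h6 : ContMDiffAt 𝓘(ℝ, ℝ × V n) (𝓘(ℝ, ℝ).prod (𝓡 n)) 1
          (fun q : ℝ × V n => (q.1, φ.symm q.2)) (0, φ y₀) := h1.prodMk h5
      exact ContMDiffAt.comp (g := fun q : ℝ × N => k q.1 q.2)
        (f := fun q : ℝ × V n => (q.1, φ.symm q.2)) _ hk.contMDiffAt h6
    refine ⟨fun y => fderiv ℝ G (0, φ y) (1, 0), ?_, ?_⟩
    · have h1 : ContinuousAt (fderiv ℝ G) (0, φ y₀) :=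
        (hGd.fderiv_right (m := 0) (by norm_num)).continuousAt
      have h2 : ContinuousAt (fun y => ((0 : ℝ), φ y)) y₀ :=
        continuousAt_const.prodMk (φ.continuousAt hy₀)
      have h3 : ContinuousAt (fun y => fderiv ℝ G (0, φ y)) y₀ :=
        ContinuousAt.comp (f := fun y => ((0 : ℝ), φ y)) (g := fderiv ℝ G) h1 h2
      exact h3.clm_apply continuousAt_const
    · have h1 := hGd.eventually (by norm_num)
      have h2 : ContinuousAt (fun y => ((0 : ℝ), φ y)) y₀ :=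
        continuousAt_const.prodMk (φ.continuousAt hy₀)
      filter_upwards [h2.eventually h1, φ.open_source.mem_nhds hy₀] with y hy hys
      have h3 : HasFDerivAt G (fderiv ℝ G (0, φ y)) (0, φ y) :=
        (hy.differentiableAt (by norm_num)).hasFDerivAt
      have h4 : HasDerivAt (fun s : ℝ => (s, φ y)) ((1 : ℝ), (0 : V n)) 0 :=
        (hasDerivAt_id (0 : ℝ)).prodMk (hasDerivAt_const _ _)
      have h5 := HasFDerivAt.comp_hasDerivAt (f := fun s : ℝ => (s, φ y)) (0 : ℝ) h3 h4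
      refine h5.congr_of_eventuallyEq (Eventually.of_forall fun s => ?_)
      show k s y = k s (φ.symm (φ y))
      rw [φ.left_inv hys]
  refine ⟨fun y => deriv (fun s => k s y) 0, ?_, fun y => ?_⟩
  · rw [continuous_iff_continuousAt]
    intro y₀
    obtain ⟨D, hD, h⟩ := key y₀
    refine hD.congr ?_
    filter_upwards [h] with y hy
    exact hy.deriv.symm
  · obtain ⟨D, -, h⟩ := key y
    exact h.self_of_nhds.differentiableAt.hasDerivAt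

/-- the data of the previous sections -/
theorem exists_fieldExt {ψ φ : ℝ → N → N} (hψ : IsFlow n N ψ)
    (hfree : ∀ (y : N) (t : ℝ), ψ t y = y ↔ ∃ j : ℤ, t = j) (hφ : FlowOn N φ)
    (hcomm : ∀ s t y, φ s (ψ t y) = ψ t (φ s y)) {g : N → ℝ} (hg : ContMDiff (𝓡 n) 𝓘(ℝ, ℝ) 1 g) :
    ∃ g' : N → ℝ, FieldExt N φ ψ g g' := by
  have hk : ContMDiff (𝓘(ℝ, ℝ).prod (𝓡 n)) 𝓘(ℝ, ℝ) 1 (fun q : ℝ × N => g (ψ q.1 q.2)) :=
    hg.comp (hψ.smooth.of_le (by norm_cast))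
  obtain ⟨D, hD, hD2⟩ := partR (k := fun u y => g (ψ u y)) hk
  exact ⟨D, hφ, ⟨hψ.smooth.continuous, hψ.zero, hψ.add⟩, hfree, hcomm, hg.continuous, hD, hD2⟩

theorem hasM_congr {f f₁ : ℝ → N} (h : f = f₁) {t : ℝ} {w w₁ : V n} (hw : w = w₁)
    (hf : HasMFDerivAt 𝓘(ℝ, ℝ) (𝓡 n) f t ((1 : ℝ →L[ℝ] ℝ).smulRight w)) :
    HasMFDerivAt 𝓘(ℝ, ℝ) (𝓡 n) f₁ t ((1 : ℝ →L[ℝ] ℝ).smulRight w₁) := by
  subst h
  subst hw
  exact hf

theorem hasM_eq {f : ℝ → N} {t : ℝ} {T T' : ℝ →L[ℝ] V n} (h : T = T')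
    (hf : HasMFDerivAt 𝓘(ℝ, ℝ) (𝓡 n) f t T) : HasMFDerivAt 𝓘(ℝ, ℝ) (𝓡 n) f t T' := by
  subst h
  exact hf

theorem lin_part (D : ℝ × V n →L[ℝ] V n) {z₁ z₂ y₂ : V n} {w : ℝ}
    (h1 : D.comp ((ContinuousLinearMap.id ℝ ℝ).prod (0 : ℝ →L[ℝ] V n)) =
      (1 : ℝ →L[ℝ] ℝ).smulRight z₁)
    (h2 : D.comp ((0 : ℝ →L[ℝ] ℝ).prod ((1 : ℝ →L[ℝ] ℝ).smulRight y₂)) =
      (1 : ℝ →L[ℝ] ℝ).smulRight z₂) :
    D.comp (((1 : ℝ →L[ℝ] ℝ).smulRight w).prod ((1 : ℝ →L[ℝ] ℝ).smulRight y₂)) =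
      (1 : ℝ →L[ℝ] ℝ).smulRight (z₂ + w • z₁) := by
  have e1 : D ((1 : ℝ), (0 : V n)) = z₁ := by
    have h5 := congrArg (fun T : ℝ →L[ℝ] V n => T 1) h1
    simpa using h5
  have e2 : D ((0 : ℝ), y₂) = z₂ := by
    have h5 := congrArg (fun T : ℝ →L[ℝ] V n => T 1) h2
    simpa using h5
  ext1
  have e3 : ((w, y₂) : ℝ × V n) = w • ((1 : ℝ), (0 : V n)) + ((0 : ℝ), y₂) := by
    ext1 <;> simp
  have e4 : D (w, y₂) = z₂ + w • z₁ := by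
    rw [e3, map_add, map_smul, e1, e2, add_comm]
  simpa using e4

theorem curve_aux {k : ℝ × N → N} {u : ℝ → ℝ} {c : ℝ → N} {t : ℝ} {w : ℝ} {z₁ z₂ y₂ : V n}
    (hkd : MDifferentiableAt (𝓘(ℝ, ℝ).prod (𝓡 n)) (𝓡 n) k (u t, c t))
    (hu : HasMFDerivAt 𝓘(ℝ, ℝ) 𝓘(ℝ, ℝ) u t ((1 : ℝ →L[ℝ] ℝ).smulRight w))
    (hc : HasMFDerivAt 𝓘(ℝ, ℝ) (𝓡 n) c t ((1 : ℝ →L[ℝ] ℝ).smulRight y₂))
    (h1 : HasMFDerivAt 𝓘(ℝ, ℝ) (𝓡 n) (fun r : ℝ => k (r, c t)) (u t)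
      ((1 : ℝ →L[ℝ] ℝ).smulRight z₁))
    (h2 : HasMFDerivAt 𝓘(ℝ, ℝ) (𝓡 n) (fun r : ℝ => k (u t, c r)) t
      ((1 : ℝ →L[ℝ] ℝ).smulRight z₂)) :
    HasMFDerivAt 𝓘(ℝ, ℝ) (𝓡 n) (fun r : ℝ => k (u r, c r)) t
      ((1 : ℝ →L[ℝ] ℝ).smulRight (z₂ + w • z₁)) := by
  have hkd' := hkd.hasMFDerivAt
  have g1 : HasMFDerivAt 𝓘(ℝ, ℝ) (𝓘(ℝ, ℝ).prod (𝓡 n)) (fun r : ℝ => (r, c t)) (u t)
      ((ContinuousLinearMap.id ℝ ℝ).prod (0 : ℝ →L[ℝ] V n)) :=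
    (hasMFDerivAt_id (I := 𝓘(ℝ, ℝ)) (u t)).prodMk (hasMFDerivAt_const (c t) (u t))
  have g2 : HasMFDerivAt 𝓘(ℝ, ℝ) (𝓘(ℝ, ℝ).prod (𝓡 n)) (fun r : ℝ => (u t, c r)) t
      ((0 : ℝ →L[ℝ] ℝ).prod ((1 : ℝ →L[ℝ] ℝ).smulRight y₂)) :=
    (hasMFDerivAt_const (u t) t).prodMk hc
  have g3 := hkd'.comp t (hu.prodMk hc)
  have f1 := hasMFDerivAt_unique (hkd'.comp (u t) g1) h1
  have f2 := hasMFDerivAt_unique (hkd'.comp t g2) h2
  have f3 := lin_part (n := n) (mfderiv (𝓘(ℝ, ℝ).prod (𝓡 n)) (𝓡 n) k (u t, c t)) (z₁ := z₁)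
    (z₂ := z₂) (y₂ := y₂) (w := w) f1 f2
  have g4 : HasMFDerivAt 𝓘(ℝ, ℝ) (𝓡 n) (fun r : ℝ => k (u r, c r)) t
      ((mfderiv (𝓘(ℝ, ℝ).prod (𝓡 n)) (𝓡 n) k (u t, c t) : ℝ × V n →L[ℝ] V n).comp
        (((1 : ℝ →L[ℝ] ℝ).smulRight w).prod ((1 : ℝ →L[ℝ] ℝ).smulRight y₂))) := g3
  exact hasM_eq f3 g4

/-- the integral curves -/
theorem integral_curve {ψ φ : ℝ → N → N} (hψ : IsFlow n N ψ)
    {Z Y : ∀ y : N, TangentSpace (𝓡 n) y}
    (hZ : ∀ y, IsMIntegralCurve (I := 𝓡 n) (fun t => ψ t y) Z)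
    (hY : ∀ y, IsMIntegralCurve (I := 𝓡 n) (fun t => φ t y) Y)
    (hcomm : ∀ s t y, φ s (ψ t y) = ψ t (φ s y)) {g : N → ℝ} {s : ℝ} {y : N} {u : ℝ → ℝ}
    (hu : ∀ t, HasDerivAt u (g (ψ (u t) (φ t y)) + s) t) :
    IsMIntegralCurve (I := 𝓡 n) (fun t => ψ (u t) (φ t y)) (fun x => Y x + (g x + s) • Z x) := by
  intro t
  have hA : HasMFDerivAt 𝓘(ℝ, ℝ) 𝓘(ℝ, ℝ) u t
      ((1 : ℝ →L[ℝ] ℝ).smulRight (g (ψ (u t) (φ t y)) + s)) := by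
    have := (hu t).hasFDerivAt.hasMFDerivAt
    exact this
  have h3 : HasMFDerivAt 𝓘(ℝ, ℝ) (𝓡 n) (fun r : ℝ => ψ (u t) (φ r y)) t
      ((1 : ℝ →L[ℝ] ℝ).smulRight (Y (ψ (u t) (φ t y)))) :=
    hasM_congr (f := fun r : ℝ => φ r (ψ (u t) y)) (funext fun r => hcomm r (u t) y)
      (w := Y (φ t (ψ (u t) y))) (congrArg (fun z => (Y z : V n)) (hcomm t (u t) y))
      (hY (ψ (u t) y) t)
  exact curve_aux (k := fun q : ℝ × N => ψ q.1 q.2) (c := fun r => φ r y) (u := u)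
    ((hψ.smooth (u t, φ t y)).mdifferentiableAt (by norm_num)) hA (hY y t) (hZ (φ t y) (u t)) h3

end

end Pool.Agent.V5helper25.PB
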