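import Pool.Agent.V5helper25.PB.Cmp
import Pool.Agent.V5helper25.PA.Main

/-!
# MP_3a2b62, Q1: the residual set of the rotations of a circle extension
-/

set_option autoImplicit false
set_option linter.unusedSectionVars false
set_option linter.unusedVariables false

open scoped Manifold ContDiff Topology
open MeasureTheory Filter Set Metric

universe u v

namespace Pool.Agent.V5helper25.PB

open Pool.Agent.H718R2.G Pool.Agent.W564.SC Pool.Agent.N813.CX Pool.Agent.H728R2.FA
  Pool.Agent.TH290.CL Pool.Agent.V5helper25.EX Pool.Agent.V5helper25.TK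

section

variable {N : Type u} [MetricSpace N] [CompactSpace N] {F : N ≃ₜ N} {ψ : ℝ → N → N}
  {a : N → ℝ → ℝ} {A : N → ℝ}

theorem der_bound (hA : Continuous A) (hA0 : ∀ y, 0 < A y) :
    ∃ L : ℝ, 1 ≤ L ∧ ∀ y, L⁻¹ ≤ A y ∧ A y ≤ L := by
  obtain ⟨L, hL⟩ := log_bound hA hA0
  refine ⟨Real.exp |L|, Real.one_le_exp (abs_nonneg _), fun y => ?_⟩
  have h1 := abs_le.1 ((hL y).trans (le_abs_self L))
  rw [← Real.exp_neg]
  constructor
  · calc Real.exp (-|L|) ≤ Real.exp (Real.log (A y)) := Real.exp_le_exp.2 h1.1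
      _ = A y := Real.exp_log (hA0 y)
  · calc A y = Real.exp (Real.log (A y)) := (Real.exp_log (hA0 y)).symm
      _ ≤ Real.exp |L| := Real.exp_le_exp.2 h1.2

theorem mfam_rot (top : TopExt F ψ a) (hA : Continuous A) (hA0 : ∀ y, 0 < A y)
    (hAd : ∀ y, HasDerivAt (a y) (A y) 0) :
    ∃ L : ℝ, MFam F ψ (fun s y t => s + a y t) (fun _ y t => A (ψ t y)) 1 L := by
  obtain ⟨L, hL1, hL⟩ := der_bound hA hA0
  exact ⟨L,
    { cont := top.cont
      zero := top.zero
      add := top.add
      free := top.free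
      ext := fun y t => by rw [zero_add, top.ext]
      acont := continuous_fst.add ((a_joint top F.continuous).comp continuous_snd)
      dcont := hA.comp (top.cont.comp ((continuous_snd.comp continuous_snd).prodMk
        (continuous_fst.comp continuous_snd)))
      der := fun s y t => (a_der top hAd y t).const_add s
      L1 := hL1
      lo := fun s y t => (hL _).1
      hi := fun s y t => (hL _).2
      aone := fun s y t => by rw [top.aone, add_assoc]
      azero := fun y => by rw [top.azero, add_zero]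
      shift := fun s y u t => by rw [a_add top]; ring
      cpos := one_pos
      mono := fun s s' y t _ => by linarith }⟩

theorem Fs_rot (top : TopExt F ψ a) (s : ℝ) : Fs F ψ (fun s y t => s + a y t) s = Rt F ψ s := by
  funext y
  show ψ (s + a y 0) (F y) = _
  rw [top.azero, add_zero]
  rfl

end

section

variable {n : ℕ} {N : Type u} [TopologicalSpace N] [T2Space N] [CompactSpace N]
  [ChartedSpace (V n) N] [IsManifold (𝓡 n) ∞ N] [MeasurableSpace N] [BorelSpace N] {r : ℕ∞}

/-- **The main theorem.** -/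
theorem mainD (hr : 1 ≤ r) (F : DiffM n N r) (ψ : ℝ → N → N) (h : CircleExt n N F ψ)
    (B : Type v) [MetricSpace B] [MeasurableSpace B] [BorelSpace B] (π : N → B) (f : B → B)
    (hπ : OrbitMap F ψ π f) (μ : Measure N) [IsFiniteMeasure μ] (hq : ∀ t, μ.map (ψ t) ≪ μ)
    {k : ℕ} {m : Fin k → Measure B} (hm : ∀ i, IsProbabilityMeasure (m i))
    (erg : ∀ i, Ergodic f (m i)) (h1 : μ.map π ≪ Measure.sum m) (h2 : ∀ i, m i ≪ μ.map π) :
    (∀ᶠ s in residual ℝ, FiniteAttractors μ (Rt F ψ s)) ∧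
    ∀ U : Set (DiffM n N r), IsOpen[strongTop n N r] U → F ∈ U →
      ∃ G ∈ U, CircleExt n N G ψ ∧ OrbitMap G ψ π f ∧ (∃ s, ∀ y, G y = ψ s (F y)) ∧
        FiniteAttractors μ G := by
  have : SecondCountableTopology N := ChartedSpace.secondCountable_of_sigmaCompact (V n) N
  let _ : MetricSpace N := TopologicalSpace.metrizableSpaceMetric N
  choose a ha using h.fibre
  have top : TopExt F ψ a :=
    ⟨h.flow.smooth.continuous, h.flow.zero, h.flow.add, h.free, fun y t => (ha y).2.2.2.2 t,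
      fun y => (ha y).1, fun y => (ha y).2.1, fun y t => (ha y).2.2.2.1 t, fun y => (ha y).2.2.1⟩
  obtain ⟨A, hA1, hA2, hA3⟩ := exists_der hr F h.flow top
  obtain ⟨L, hM⟩ := mfam_rot (F := F.toHomeomorph) top hA1 hA2 hA3
  have hres : ∀ᶠ s in residual ℝ, FiniteAttractors μ (Rt F ψ s) := by
    have hh := mostK hM (show OrbitMap F.toHomeomorph ψ π f from hπ) hm erg hq h1 h2
    filter_upwards [hh] with s hs
    rw [Fs_rot (F := F.toHomeomorph) top] at hs
    exact hs
  refine ⟨hres, fun U hU hFU => ?_⟩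
  obtain ⟨H, hH, hHe, hH0⟩ := Pool.Agent.N102.UF.flow_fam h.flow r F
  rcases isEmpty_or_nonempty N with hN | ⟨⟨z⟩⟩
  · obtain ⟨s, hs⟩ := (dense_of_mem_residual hres).nonempty
    refine ⟨F, hFU, h, hπ, ⟨0, fun y => (hN.false y).elim⟩, ?_⟩
    have : (F : N → N) = Rt F ψ s := funext fun y => (hN.false y).elim
    rw [this]
    exact hs
  obtain ⟨κ, hκ, hk⟩ := Pool.Agent.TH80.CLX.fam_mem r hr H hH z U hU (by rw [hH0]; exact hFU)
  obtain ⟨s, hs, hsf⟩ := (dense_of_mem_residual hres).inter_open_nonempty (Ioo (-κ) κ) isOpen_Ioo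
    ⟨0, by constructor <;> linarith⟩
  have hHs : (H s : N → N) = Rt F ψ s := funext fun y => hHe s y
  refine ⟨H s, hk s (by rw [Real.norm_eq_abs, abs_lt]; exact hs), ?_, ?_, ⟨s, hHe s⟩, ?_⟩
  · have h3 := topExt_rot top s (hHe s)
    exact ⟨h.flow, h.free, fun y => ⟨a y, h3.acont y, h3.amono y, h3.azero y, h3.aone y, h3.ext y⟩⟩
  · rw [hHs]
    exact orbR (F := F.toHomeomorph) hπ s
  · rw [hHs]
    exact hsf

end

end Pool.Agent.V5helper25.PB
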