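import Pool.Agent.V5helper25.PB.MainF

/-!
# MP_3a2b62, Q2: definitions for the statement on vector fields

A vector field on the manifold `N` with charts in `V n = ℝⁿ` is a map `X : N → V n`: in Mathlib the
tangent space of `N` at `y` is `V n`, and `X y` are the coordinates of the tangent vector at `y` in
the preferred chart `chartAt (V n) y` of `y`.
-/

set_option autoImplicit false

open scoped Manifold ContDiff Topology
open MeasureTheory Filter Set

universe u v

namespace Pool.Agent.V5helper25.PB

open Pool.Agent.H718R2.G Pool.Agent.TH290.CL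

section

variable {n : ℕ} {N : Type u} [TopologicalSpace N] [ChartedSpace (V n) N]

/-- The coordinates of the tangent vector `X y` in the preferred chart of `y₀`. -/
noncomputable def coordF (X : N → V n) (y₀ y : N) : V n :=
  fderiv ℝ (fun z => chartAt (V n) y₀ ((chartAt (V n) y).symm z)) (chartAt (V n) y y) (X y)

/-- The vector field `X` is of class `C^r`: so are its coordinates in the charts. -/
def FieldR (r : ℕ∞) (X : N → V n) : Prop :=
  ∀ y₀ : N, ContMDiffAt (𝓡 n) 𝓘(ℝ, V n) r (coordF X y₀) y₀

/-- `Φ` is the flow of the field `X`: the curves `t ↦ Φ t y` are its integral curves. -/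
def FlowOf (X : N → V n) (Φ : ℝ → N → N) : Prop :=
  FlowOn N Φ ∧ ∀ y, IsMIntegralCurve (I := 𝓡 n) (fun t => Φ t y) X

/-- The field `Y + (g + s) Z`. -/
noncomputable def fieldS (Y Z : N → V n) (g : N → ℝ) (s : ℝ) (y : N) : V n :=
  Y y + (g y + s) • Z y

/-- `ψ` is a smooth free action of the circle `ℝ / ℤ` on `N`, generated by the `C^r` field `Z`. -/
structure CircleGen (r : ℕ∞) (ψ : ℝ → N → N) (Z : N → V n) : Prop where
  smooth : IsFlow n N ψ
  free : ∀ (y : N) (t : ℝ), ψ t y = y ↔ ∃ j : ℤ, t = j
  field : FieldR r Z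
  gen : FlowOf Z ψ

/-- `Y` is a `C^r` field with the flow `φ`, and `φ` commutes with `ψ`. -/
structure InvField (r : ℕ∞) (ψ : ℝ → N → N) (Y : N → V n) (φ : ℝ → N → N) : Prop where
  field : FieldR r Y
  flow : FlowOf Y φ
  comm : ∀ s t y, φ s (ψ t y) = ψ t (φ s y)

theorem fieldR_iff [IsManifold (𝓡 n) ∞ N] (r : ℕ∞) (X : N → V n) :
    FieldR r X ↔ FieldC (n := n) (N := N) r X := by
  have h : ∀ y₀ : N, ContMDiffAt (𝓡 n) (𝓡 n).tangent r
      (fun y => (⟨y, X y⟩ : TangentBundle (𝓡 n) N)) y₀ ↔
      ContMDiffAt (𝓡 n) 𝓘(ℝ, V n) r (coordF X y₀) y₀ := by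
    intro y₀
    have e : (fun y => (trivializationAt (V n) (TangentSpace (𝓡 n) : N → Type) y₀
        ⟨y, X y⟩).2) = coordF X y₀ := by
      funext y
      rw [TangentBundle.trivializationAt_apply]
      simp only [coordF, OpenPartialHomeomorph.extend, mfld_simps, fderivWithin_univ]
      rfl
    rw [← e]
    exact Bundle.contMDiffAt_section (E := (TangentSpace (𝓡 n) : N → Type))
      (s := fun y => (show TangentSpace (𝓡 n) y from X y)) y₀
  exact (forall_congr' h).symm

end

/-- `β` is the flow induced by `φ` on the space `B` of the orbits of `ψ`; the null sets of `μ` are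
invariant under `ψ`; the measures `m i` are ergodic invariant probability measures of `β`, absolutely
continuous with respect to the projection of `μ`, and a set which is null for all of them is null for
this projection. -/
structure ErgBase {N : Type u} [TopologicalSpace N] [MeasurableSpace N] {B : Type v}
    [TopologicalSpace B] [MeasurableSpace B] (φ ψ : ℝ → N → N) (π : N → B) (β : ℝ → B → B)
    (μ : Measure N) {k : ℕ} (m : Fin k → Measure B) : Prop where
  base : OrbitFlow φ ψ π β
  quasi : ∀ t, μ.map (ψ t) ≪ μ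
  prob : ∀ i, IsProbabilityMeasure (m i)
  erg : ∀ i, ErgFlow β (m i)
  ac : ∀ i, m i ≪ μ.map π
  null : μ.map π ≪ Measure.sum m

end Pool.Agent.V5helper25.PB
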