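import Pool.Agent.V5helper25.PB.Sard
import Pool.Agent.TH525.PF.Main

/-!
# MP_3a2b62: the neutral parameters of a monotone family form a closed set
-/

set_option autoImplicit false

open Set Filter Topology MeasureTheory

namespace Pool.Agent.V5helper25.PB

open Pool.Agent.TH525.PF Pool.Agent.TH525.PF.Sys

variable {X : Type*} [MeasurableSpace X] {m : Measure X} [IsProbabilityMeasure m]

namespace Fam

variable (S : Fam X)

/-- comparison of graphs -/
theorem cmp (erg : Ergodic S.T m) {σ σ' : ℝ} {φ ψ : X → ℝ} (hφ : (S.sy σ).Gr m φ)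
    (hψ : (S.sy σ').Gr m ψ) :
    (∀ᵐ x ∂m, φ x < ψ x) ∨ (∀ᵐ x ∂m, φ x = ψ x) ∨ (∀ᵐ x ∂m, ψ x < φ x) := by
  rcases eq_or_ne σ' σ with rfl | h
  · exact (S.sy σ').tri erg hφ hψ
  · rcases S.sgn erg hφ h hψ with h1 | h1
    · exact Or.inl h1
    · exact Or.inr (Or.inr h1)

theorem cmp_lt (erg : Ergodic S.T m) {σ σ' : ℝ} {φ ψ : X → ℝ} (hφ : (S.sy σ).Gr m φ)
    (hψ : (S.sy σ').Gr m ψ) (h : ef m φ < ef m ψ) : ∀ᵐ x ∂m, φ x < ψ x := by
  rcases S.cmp erg hφ hψ with h1 | h1 | h1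
  · exact h1
  · have : ef m φ = ef m ψ := by
      unfold ef
      refine integral_congr_ae ?_
      filter_upwards [h1] with x hx
      rw [hx]
    exact absurd this h.ne
  · exact absurd (ef_lt hψ.1 hφ.1 h1) (not_lt.2 h.le)

theorem cmp_le (erg : Ergodic S.T m) {σ σ' : ℝ} {φ ψ : X → ℝ} (hφ : (S.sy σ).Gr m φ)
    (hψ : (S.sy σ').Gr m ψ) (h : ¬ ef m φ < ef m ψ) : ∀ᵐ x ∂m, ψ x ≤ φ x := by
  rcases S.cmp erg hφ hψ with h1 | h1 | h1
  · exact absurd (ef_lt hφ.1 hψ.1 h1) h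
  · filter_upwards [h1] with x hx using hx.ge
  · filter_upwards [h1] with x hx using hx.le

/-- every graph lies in a window of length two around an integer -/
theorem window (erg : Ergodic S.T m) (per : ∀ σ x y, S.F σ x (y + 1) = S.F σ x y + 1)
    (h0 : ∀ x, S.F 0 x 0 = 0) {σ : ℝ} {φ : X → ℝ} (hφ : (S.sy σ).Gr m φ) :
    ∃ k : ℤ, ∀ᵐ x ∂m, -1 ≤ φ x - k ∧ φ x - k ≤ 1 := by
  have hk : ∀ k : ℤ, (S.sy 0).Gr m fun _ => (k : ℝ) := by
    intro k
    refine ⟨measurable_const, Eventually.of_forall fun x => ?_⟩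
    have := (S.sy 0).F_int (per 0) k x 0
    rw [zero_add] at this
    rw [this]
    show S.F 0 x 0 + k = k
    rw [h0, zero_add]
  have hD : ∀ k : ℤ, (∀ᵐ x ∂m, φ x ≤ k) ∨ (∀ᵐ x ∂m, (k : ℝ) ≤ φ x) := by
    intro k
    rcases S.cmp erg hφ (hk k) with h | h | h
    · left; filter_upwards [h] with x hx using hx.le
    · left; filter_upwards [h] with x hx using hx.le
    · right; filter_upwards [h] with x hx using hx.le
  have hall : ∀ᵐ x ∂m, ∀ k : ℤ, ((∀ᵐ x ∂m, φ x ≤ k) → φ x ≤ k) ∧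
      ((∀ᵐ x ∂m, (k : ℝ) ≤ φ x) → (k : ℝ) ≤ φ x) := by
    rw [ae_all_iff]
    intro k
    have a1 : ∀ᵐ x ∂m, (∀ᵐ x ∂m, φ x ≤ k) → φ x ≤ k := by
      by_cases h : ∀ᵐ x ∂m, φ x ≤ k
      · filter_upwards [h] with x hx _ using hx
      · exact Eventually.of_forall fun x h' => absurd h' h
    have a2 : ∀ᵐ x ∂m, (∀ᵐ x ∂m, (k : ℝ) ≤ φ x) → (k : ℝ) ≤ φ x := by
      by_cases h : ∀ᵐ x ∂m, (k : ℝ) ≤ φ x
      · filter_upwards [h] with x hx _ using hx
      · exact Eventually.of_forall fun x h' => absurd h' h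
    exact a1.and a2
  obtain ⟨x₀, hx₀⟩ := hall.exists
  set k := ⌊φ x₀⌋ with hkdef
  have f1 := Int.floor_le (φ x₀)
  have f2 := Int.lt_floor_add_one (φ x₀)
  have g1 : ∀ᵐ x ∂m, φ x ≤ ((k + 1 : ℤ) : ℝ) := by
    rcases hD (k + 1) with h | h
    · exact h
    · have := (hx₀ (k + 1)).2 h
      push_cast at this
      linarith
  have g2 : ∀ᵐ x ∂m, ((k - 1 : ℤ) : ℝ) ≤ φ x := by
    rcases hD (k - 1) with h | h
    · have := (hx₀ (k - 1)).1 h
      push_cast at this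
      linarith
    · exact h
  refine ⟨k, ?_⟩
  filter_upwards [g1, g2] with x a b
  push_cast at a b
  constructor <;> linarith

omit [IsProbabilityMeasure m] in
theorem gr_shift (per : ∀ σ x y, S.F σ x (y + 1) = S.F σ x y + 1) {σ : ℝ} {φ : X → ℝ}
    (hφ : (S.sy σ).Gr m φ) (k : ℤ) : (S.sy σ).Gr m (fun x => φ x - k) ∧
      (S.sy σ).ex m (fun x => φ x - k) = (S.sy σ).ex m φ := by
  have h1 : ∀ (x : X) (y : ℝ), (S.sy σ).F x (y - k) = (S.sy σ).F x y - k := by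
    intro x y
    have := (S.sy σ).F_int (per σ) (-k) x y
    push_cast at this
    rw [sub_eq_add_neg, this, sub_eq_add_neg]
  refine ⟨⟨hφ.1.sub_const _, ?_⟩, ?_⟩
  · filter_upwards [hφ.2] with x hx
    rw [h1, hx]
  · unfold ex
    refine integral_congr_ae (Eventually.of_forall fun x => ?_)
    have h2 := G_int (per σ) (fun x y => (S.sy σ).der x y) (-k) x (φ x)
    have h3 : (S.sy σ).G x (φ x - k) = (S.sy σ).G x (φ x) := by
      rw [← h2]
      push_cast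
      rw [← sub_eq_add_neg]
    show Real.log ((S.sy σ).G x (φ x - k)) = Real.log ((S.sy σ).G x (φ x))
    rw [h3]

/-- **The neutral parameters form a closed set.** -/
theorem neu_closed (erg : Ergodic S.T m) (per : ∀ σ x y, S.F σ x (y + 1) = S.F σ x y + 1)
    (h0 : ∀ x, S.F 0 x 0 = 0) : IsClosed (S.Neu m) := by
  refine IsSeqClosed.isClosed fun u σ hu hlim => ?_
  have hex : ∀ n, ∃ φ : X → ℝ, (S.sy (u n)).Gr m φ ∧ (S.sy (u n)).ex m φ = 0 ∧
      ∀ᵐ x ∂m, -1 ≤ φ x ∧ φ x ≤ 1 := by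
    intro n
    obtain ⟨φ, hφ, hφ0⟩ := hu n
    obtain ⟨k, hk⟩ := S.window erg per h0 hφ
    obtain ⟨h1, h2⟩ := S.gr_shift per hφ k
    exact ⟨_, h1, h2.trans hφ0, hk⟩
  choose φ hφ hφ0 hφb using hex
  have hbd : ∀ᵐ x ∂m, ∀ n, -1 ≤ φ n x ∧ φ n x ≤ 1 := ae_all_iff.2 hφb
  have key : ∀ (g : ℕ → ℕ), StrictMono g → ∀ ψ : X → ℝ, Measurable ψ →
      (∀ᵐ x ∂m, Tendsto (fun n => φ (g n) x) atTop (𝓝 (ψ x))) → σ ∈ S.Neu m := by
    intro g hg ψ mψ hψ
    have hT := erg.toMeasurePreserving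
    have hlim' : Tendsto (fun n => u (g n)) atTop (𝓝 σ) := hlim.comp hg.tendsto_atTop
    refine ⟨ψ, ⟨mψ, ?_⟩, ?_⟩
    · have h1 : ∀ᵐ x ∂m, ∀ n, S.F (u (g n)) x (φ (g n) x) = φ (g n) (S.T x) :=
        ae_all_iff.2 fun n => (hφ (g n)).2
      have h2 : ∀ᵐ x ∂m, Tendsto (fun n => φ (g n) (S.T x)) atTop (𝓝 (ψ (S.T x))) :=
        hT.quasiMeasurePreserving.ae hψ
      filter_upwards [h1, h2, hψ] with x a b c
      have d : Tendsto (fun n => S.F (u (g n)) x (φ (g n) x)) atTop (𝓝 (S.F σ x (ψ x))) :=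
        ((S.contF x).tendsto (σ, ψ x)).comp (hlim'.prodMk_nhds c)
      simp only [a] at d
      exact tendsto_nhds_unique d b
    · have lim : Tendsto (fun n => ∫ x, Real.log (S.G (u (g n)) x (φ (g n) x)) ∂m) atTop
          (𝓝 (∫ x, Real.log (S.G σ x (ψ x)) ∂m)) := by
        refine tendsto_integral_of_dominated_convergence (fun _ => Real.log S.L)
          (fun n => ((S.sy (u (g n))).measG (hφ (g n)).1).log.aestronglyMeasurable)
          (integrable_const _) ?_ ?_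
        · intro n
          refine Eventually.of_forall fun x => ?_
          rw [Real.norm_eq_abs]
          exact (S.sy (u (g n))).abs_log _ _
        · filter_upwards [hψ] with x c
          have d : Tendsto (fun n => S.G (u (g n)) x (φ (g n) x)) atTop (𝓝 (S.G σ x (ψ x))) :=
            ((S.contG x).tendsto (σ, ψ x)).comp (hlim'.prodMk_nhds c)
          exact d.log ((S.sy σ).Gpos x (ψ x)).ne'
      have h3 : ∀ n, ∫ x, Real.log (S.G (u (g n)) x (φ (g n) x)) ∂m = 0 := fun n => hφ0 (g n)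
      simp only [h3] at lim
      exact (tendsto_nhds_unique lim tendsto_const_nhds)
  obtain ⟨g, hg⟩ := exists_increasing_or_nonincreasing_subseq (fun x y : ℝ => x < y)
    (fun n => ef m (φ n))
  rcases hg with hg | hg
  · have h1 : ∀ᵐ x ∂m, ∀ n, φ (g n) x < φ (g (n + 1)) x :=
      ae_all_iff.2 fun n => S.cmp_lt erg (hφ _) (hφ _) (hg n (n + 1) (Nat.lt_succ_self n))
    refine key g g.strictMono (fun x => ⨆ n, φ (g n) x) (Measurable.iSup fun n => (hφ (g n)).1) ?_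
    filter_upwards [h1, hbd] with x hx hb
    refine tendsto_atTop_ciSup (monotone_nat_of_le_succ fun n => (hx n).le) ?_
    exact ⟨1, by rintro _ ⟨n, rfl⟩; exact (hb _).2⟩
  · have h1 : ∀ᵐ x ∂m, ∀ n, φ (g (n + 1)) x ≤ φ (g n) x :=
      ae_all_iff.2 fun n => S.cmp_le erg (hφ _) (hφ _) (hg n (n + 1) (Nat.lt_succ_self n))
    refine key g g.strictMono (fun x => ⨅ n, φ (g n) x) (Measurable.iInf fun n => (hφ (g n)).1) ?_
    filter_upwards [h1, hbd] with x hx hb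
    refine tendsto_atTop_ciInf (antitone_nat_of_succ_le fun n => hx n) ?_
    exact ⟨-1, by rintro _ ⟨n, rfl⟩; exact (hb _).1⟩

end Fam

end Pool.Agent.V5helper25.PB
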