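import Pool.Agent.V5helper25.PB.Flw

/-!
# MP_3a2b62: several ergodic components
-/

set_option autoImplicit false
set_option linter.unusedSectionVars false
set_option linter.unusedVariables false

open scoped Topology ENNReal
open MeasureTheory Filter Set Metric

universe u v

namespace Pool.Agent.V5helper25.PB

open Pool.Agent.N813.CX Pool.Agent.H728R2.FA

section

variable {B : Type v} [MeasurableSpace B]

/-- the set where the density of `m` is positive -/
def dens (m ν : Measure B) : Set B := {x | m.rnDeriv ν x ≠ 0}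

theorem dens_meas (m ν : Measure B) : MeasurableSet (dens m ν) :=
  (Measure.measurable_rnDeriv m ν) (measurableSet_singleton (0 : ℝ≥0∞)).compl

theorem dens_iff {m ν : Measure B} [IsFiniteMeasure m] [IsFiniteMeasure ν] (h : m ≪ ν) {S : Set B}
    (hS : MeasurableSet S) : m S = 0 ↔ ν (S ∩ dens m ν) = 0 := by
  have h1 : m S = ∫⁻ x in S, m.rnDeriv ν x ∂ν := by
    conv_lhs => rw [← Measure.withDensity_rnDeriv_eq m ν h]
    exact withDensity_apply _ hS
  rw [h1, lintegral_eq_zero_iff (Measure.measurable_rnDeriv m ν), Filter.EventuallyEq,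
    ae_restrict_iff' hS, ae_iff]
  have h2 : {a | ¬(a ∈ S → m.rnDeriv ν a = (0 : B → ℝ≥0∞) a)} = S ∩ dens m ν := by
    ext a
    simp [dens]
  rw [h2]

theorem dens_ac {m ν : Measure B} [IsFiniteMeasure m] [IsFiniteMeasure ν] (h : m ≪ ν) :
    ν.restrict (dens m ν) ≪ m ∧ m ≪ ν.restrict (dens m ν) := by
  constructor
  · refine Measure.AbsolutelyContinuous.mk fun S hS h0 => ?_
    rw [Measure.restrict_apply hS]
    exact (dens_iff h hS).1 h0
  · refine Measure.AbsolutelyContinuous.mk fun S hS h0 => ?_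
    rw [Measure.restrict_apply hS] at h0
    exact (dens_iff h hS).2 h0

end

section

variable {N : Type u} [TopologicalSpace N] [MeasurableSpace N]

/-- finitely many attractors for the pieces of a measure -/
theorem att_pieces {ι : Type} [Fintype ι] {μ : Measure N} {P : ι → Set N}
    (hP : ∀ i, MeasurableSet (P i)) (hc : μ (⋃ i, P i)ᶜ = 0) {G : N → N}
    (h : ∀ i, FiniteAttractors (μ.restrict (P i)) G) : FiniteAttractors μ G := by
  choose k Λ h1 h2 using h
  let e : (Σ i, Fin (k i)) ≃ Fin (Fintype.card (Σ i, Fin (k i))) := Fintype.equivFin _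
  refine ⟨Fintype.card (Σ i, Fin (k i)), fun j => Λ (e.symm j).1 (e.symm j).2, fun j => ?_, ?_⟩
  · obtain ⟨a, b, c⟩ := h1 (e.symm j).1 (e.symm j).2
    exact ⟨a, b, c.trans_le (Measure.restrict_apply_le _ _)⟩
  · have h3 : {p | ∀ j, ¬ omegaLim G p ⊆ Λ (e.symm j).1 (e.symm j).2} ⊆
        (⋃ i, P i)ᶜ ∪ ⋃ i, {p | ∀ l, ¬ omegaLim G p ⊆ Λ i l} ∩ P i := by
      intro p hp
      by_cases hpP : p ∈ ⋃ i, P i
      · right
        obtain ⟨i, hi⟩ := mem_iUnion.1 hpP
        refine mem_iUnion.2 ⟨i, fun l => ?_, hi⟩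
        have := hp (e ⟨i, l⟩)
        rwa [Equiv.symm_apply_apply] at this
      · exact Or.inl hpP
    refine measure_mono_null h3 (measure_union_null hc (measure_iUnion_null fun i => ?_))
    have h4 := h2 i
    rwa [Measure.restrict_apply' (hP i)] at h4

end

section

variable {N : Type u} [MetricSpace N] [CompactSpace N] [MeasurableSpace N] [BorelSpace N]
  {B : Type v} [MetricSpace B] [MeasurableSpace B] [BorelSpace B]
  {F : N ≃ₜ N} {ψ : ℝ → N → N} {A A' : ℝ → N → ℝ → ℝ} {c L : ℝ} {π : N → B} {f : B → B}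
  {μ : Measure N} [IsFiniteMeasure μ]

/-- **Most parameters have finitely many attractors**, several ergodic components. -/
theorem mostK (h : MFam F ψ A A' c L) (ho : OrbitMap F ψ π f) {ι : Type} [Fintype ι]
    {m : ι → Measure B} (hm : ∀ i, IsProbabilityMeasure (m i)) (erg : ∀ i, Ergodic f (m i))
    (hq : ∀ t, μ.map (ψ t) ≪ μ) (h1 : μ.map π ≪ Measure.sum m) (h2 : ∀ i, m i ≪ μ.map π) :
    ∀ᶠ s in residual ℝ, FiniteAttractors μ (Fs F ψ A s) := by
  have hπ : Measurable π := ho.cont.measurable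
  have hfin : IsFiniteMeasure (μ.map π) := Measure.isFiniteMeasure_map μ π
  set D : ι → Set B := fun i => dens (m i) (μ.map π) with hD
  have hDm : ∀ i, MeasurableSet (D i) := fun i => dens_meas _ _
  have hψm : ∀ t, Measurable (ψ t) := fun t =>
    (h.cont.comp (continuous_const.prodMk continuous_id)).measurable
  have key : ∀ i, ∀ᶠ s in residual ℝ, FiniteAttractors (μ.restrict (π ⁻¹' D i)) (Fs F ψ A s) := by
    intro i
    have := hm i
    have e1 : (μ.restrict (π ⁻¹' D i)).map π = (μ.map π).restrict (D i) :=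
      (Measure.restrict_map hπ (hDm i)).symm
    have e2 := dens_ac (h2 i)
    refine mostM h ho (erg i) (fun t => ?_) ?_ ?_
    · have e3 : ψ t ⁻¹' (π ⁻¹' D i) = π ⁻¹' D i := by
        ext y
        show π (ψ t y) ∈ D i ↔ π y ∈ D i
        rw [(ho.eq y (ψ t y)).2 ⟨t, rfl⟩]
      have e4 := Measure.restrict_map (μ := μ) (hψm t) (hπ (hDm i))
      rw [e3] at e4
      rw [← e4]
      exact (hq t).restrict _
    · rw [e1]
      exact e2.1
    · rw [e1]
      exact e2.2
  filter_upwards [eventually_all.2 key] with s hs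
  refine att_pieces (fun i => hπ (hDm i)) ?_ hs
  have h3 : (Measure.sum m) (⋃ i, D i)ᶜ = 0 := by
    rw [Measure.sum_apply _ (MeasurableSet.iUnion hDm).compl]
    refine ENNReal.tsum_eq_zero.2 fun i => ?_
    have := hm i
    refine (dens_iff (h2 i) (MeasurableSet.iUnion hDm).compl).2 ?_
    have : (⋃ i, D i)ᶜ ∩ dens (m i) (μ.map π) = ∅ := by
      ext x
      simp only [mem_inter_iff, mem_compl_iff, mem_iUnion, not_exists, mem_empty_iff_false,
        iff_false, not_and]
      intro hx hx2
      exact hx i hx2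
    rw [this, measure_empty]
  have h4 := h1 h3
  rw [Measure.map_apply hπ (MeasurableSet.iUnion hDm).compl] at h4
  refine measure_mono_null ?_ h4
  intro p hp hpD
  refine hp ?_
  obtain ⟨i, hi⟩ := mem_iUnion.1 hpD
  exact mem_iUnion.2 ⟨i, hi⟩

end

end Pool.Agent.V5helper25.PB
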