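import Pool.Agent.V5helper25.PB.Fld

/-!
# MP_3a2b62, Q2: dependence of the solutions on the initial value and on the parameter
-/

set_option autoImplicit false
set_option linter.unusedSectionVars false
set_option linter.unusedVariables false

open scoped Topology NNReal
open Filter Set Metric MeasureTheory

universe u

namespace Pool.Agent.V5helper25.PB

section

variable {B : Type u} [MetricSpace B] [CompactSpace B] {φ : ℝ → B → B} {g g' : B → ℝ → ℝ}

/-- the mean of `g'` between `a` and `b` -/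
noncomputable def mea (g' : B → ℝ → ℝ) (x : B) (a b : ℝ) : ℝ :=
  ∫ θ in (0 : ℝ)..1, g' x (a + θ * (b - a))

theorem mea_self (g' : B → ℝ → ℝ) (x : B) (a : ℝ) : mea g' x a a = g' x a := by
  simp [mea]

theorem mea_spec (h : Fld φ g g') (x : B) (a b : ℝ) : g x b - g x a = mea g' x a b * (b - a) := by
  have h1 : ∀ θ ∈ uIcc (0 : ℝ) 1, HasDerivAt (fun θ : ℝ => g x (a + θ * (b - a)))
      (g' x (a + θ * (b - a)) * (b - a)) θ := by
    intro θ _
    have h2 : HasDerivAt (fun θ : ℝ => a + θ * (b - a)) (b - a) θ := by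
      simpa using ((hasDerivAt_id θ).mul_const (b - a)).const_add a
    exact (h.der x _).comp θ h2
  have hc : Continuous fun θ : ℝ => g' x (a + θ * (b - a)) * (b - a) := by
    have : Continuous fun θ : ℝ => g' x (a + θ * (b - a)) :=
      h.dc.comp (continuous_const.prodMk (by fun_prop))
    exact this.mul continuous_const
  have h3 := intervalIntegral.integral_eq_sub_of_hasDerivAt h1 (hc.intervalIntegrable 0 1)
  rw [intervalIntegral.integral_mul_const] at h3
  simp only [one_mul, zero_mul, add_zero, add_sub_cancel] at h3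
  exact h3.symm

theorem mea_cont (h : Fld φ g g') : Continuous fun q : B × ℝ × ℝ => mea g' q.1 q.2.1 q.2.2 := by
  refine intervalIntegral.continuous_parametric_intervalIntegral_of_continuous' ?_ 0 1
  have : Continuous fun z : (B × ℝ × ℝ) × ℝ => (z.1.1, z.1.2.1 + z.2 * (z.1.2.2 - z.1.2.1)) := by
    fun_prop
  exact h.dc.comp this

theorem mea_bd {K : ℝ} (hK : ∀ x y, |g' x y| ≤ K) (x : B) (a b : ℝ) : |mea g' x a b| ≤ K := by
  have := intervalIntegral.norm_integral_le_of_norm_le_const (a := (0 : ℝ)) (b := 1) (C := K)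
    (f := fun θ => g' x (a + θ * (b - a))) fun θ _ => hK x _
  simpa [mea] using this

/-- the linear equation -/
theorem lin {q z : ℝ → ℝ} {e : ℝ} (hq : Continuous q) (hz : ∀ t, HasDerivAt z (q t * z t + e) t) (t : ℝ) :
    HasDerivAt (fun t => z t * Real.exp (-∫ r in (0 : ℝ)..t, q r))
      (e * Real.exp (-∫ r in (0 : ℝ)..t, q r)) t := by
  have h1 : HasDerivAt (fun t => ∫ r in (0 : ℝ)..t, q r) (q t) t :=
    intervalIntegral.integral_hasDerivAt_right (hq.intervalIntegrable _ _)
      (hq.stronglyMeasurableAtFilter _ _) hq.continuousAt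
  have h3 : HasDerivAt (fun t => Real.exp (-∫ r in (0 : ℝ)..t, q r))
      (Real.exp (-∫ r in (0 : ℝ)..t, q r) * -q t) t := h1.neg.exp
  exact ((hz t).mul h3).congr_deriv (by ring)

theorem lin0 {q z : ℝ → ℝ} (hq : Continuous q) (hz : ∀ t, HasDerivAt z (q t * z t) t) (t : ℝ) :
    z t = z 0 * Real.exp (∫ r in (0 : ℝ)..t, q r) := by
  have h1 := lin (e := 0) hq (fun t => by rw [add_zero]; exact hz t)
  have h2 : z t * Real.exp (-∫ r in (0 : ℝ)..t, q r) = z 0 * Real.exp (-∫ r in (0 : ℝ)..0, q r) :=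
    is_const_of_deriv_eq_zero (fun t => (h1 t).differentiableAt)
      (fun t => by rw [(h1 t).deriv, zero_mul]) t 0
  rw [intervalIntegral.integral_same, neg_zero, Real.exp_zero, mul_one] at h2
  rw [← h2, mul_assoc, ← Real.exp_add, neg_add_cancel, Real.exp_zero, mul_one]

theorem Yo_ct (h : Fld φ g g') (s : ℝ) (x : B) (y : ℝ) : Continuous (Yo h s x y) :=
  continuous_iff_continuousAt.2 fun t => (Yo_der h s x y t).continuousAt

/-- the difference of two solutions -/
theorem Yo_sub (h : Fld φ g g') (s : ℝ) (x : B) (y y' t : ℝ) :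
    Yo h s x y' t - Yo h s x y t =
      (y' - y) * Real.exp (∫ r in (0 : ℝ)..t, mea g' (φ r x) (Yo h s x y r) (Yo h s x y' r)) := by
  have hφ : Continuous fun r => φ r x := h.flow.cont.comp (continuous_id.prodMk continuous_const)
  have hq : Continuous fun r => mea g' (φ r x) (Yo h s x y r) (Yo h s x y' r) :=
    (mea_cont h).comp (hφ.prodMk ((Yo_ct h s x y).prodMk (Yo_ct h s x y')))
  have h1 := lin0 (z := fun t => Yo h s x y' t - Yo h s x y t) hq (fun t => by
    have h2 := (Yo_der h s x y' t).sub (Yo_der h s x y t)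
    have h3 := mea_spec h (φ t x) (Yo h s x y t) (Yo h s x y' t)
    rw [← h3]
    exact h2.congr_deriv (by ring)) t
  simp only [Yo_zero] at h1
  exact h1

/-- the derivative of the solution in the initial value -/
noncomputable def De (h : Fld φ g g') (s : ℝ) (x : B) (y t : ℝ) : ℝ :=
  Real.exp (∫ r in (0 : ℝ)..t, g' (φ r x) (Yo h s x y r))

theorem De_cont (h : Fld φ g g') (t : ℝ) :
    Continuous fun q : ℝ × B × ℝ => De h q.1 q.2.1 q.2.2 t := by
  refine Real.continuous_exp.comp
    (intervalIntegral.continuous_parametric_intervalIntegral_of_continuous' ?_ 0 t)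
  have h1 : Continuous fun z : (ℝ × B × ℝ) × ℝ => φ z.2 z.1.2.1 :=
    h.flow.cont.comp (by fun_prop : Continuous fun z : (ℝ × B × ℝ) × ℝ => (z.2, z.1.2.1))
  have h2 : Continuous fun z : (ℝ × B × ℝ) × ℝ => Yo h z.1.1 z.1.2.1 z.1.2.2 z.2 :=
    (Yo_cont h).comp (by fun_prop :
      Continuous fun z : (ℝ × B × ℝ) × ℝ => (z.1.1, z.1.2.1, z.1.2.2, z.2))
  exact h.dc.comp (h1.prodMk h2)

theorem Yo_hd (h : Fld φ g g') (s : ℝ) (x : B) (y t : ℝ) :
    HasDerivAt (fun y => Yo h s x y t) (De h s x y t) y := by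
  set E : ℝ → ℝ := fun y' =>
    Real.exp (∫ r in (0 : ℝ)..t, mea g' (φ r x) (Yo h s x y r) (Yo h s x y' r)) with hE
  have hEc : Continuous E := by
    refine Real.continuous_exp.comp
      (intervalIntegral.continuous_parametric_intervalIntegral_of_continuous' ?_ 0 t)
    have h1 : Continuous fun z : ℝ × ℝ => φ z.2 x :=
      h.flow.cont.comp (by fun_prop : Continuous fun z : ℝ × ℝ => (z.2, x))
    have h2 : Continuous fun z : ℝ × ℝ => Yo h s x z.1 z.2 :=
      (Yo_cont h).comp (by fun_prop : Continuous fun z : ℝ × ℝ => (s, x, z.1, z.2))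
    have h3 : Continuous fun z : ℝ × ℝ => Yo h s x y z.2 := (Yo_ct h s x y).comp continuous_snd
    exact (mea_cont h).comp (h1.prodMk (h3.prodMk h2))
  have hEy : E y = De h s x y t := by
    simp only [hE, mea_self]
    rfl
  rw [hasDerivAt_iff_tendsto_slope, ← hEy]
  refine (hEc.tendsto y |>.mono_left nhdsWithin_le_nhds).congr' ?_
  filter_upwards [self_mem_nhdsWithin] with y' hy'
  have hne : y' - y ≠ 0 := sub_ne_zero.2 hy'
  rw [slope_def_field, Yo_sub h s x y y' t, mul_comm, mul_div_assoc, div_self hne, mul_one]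

theorem int_bd {q : ℝ → ℝ} {K : ℝ} (hq : ∀ t, |q t| ≤ K) (t : ℝ) :
    |∫ r in (0 : ℝ)..t, q r| ≤ K * |t| := by
  have := intervalIntegral.norm_integral_le_of_norm_le_const (a := (0 : ℝ)) (b := t) (C := K)
    (f := q) fun θ _ => hq θ
  simpa using this

theorem De_bd (h : Fld φ g g') {K : ℝ} (hK : ∀ x y, |g' x y| ≤ K) (s : ℝ) (x : B) (y t : ℝ) :
    (Real.exp (K * |t|))⁻¹ ≤ De h s x y t ∧ De h s x y t ≤ Real.exp (K * |t|) := by
  have h1 := abs_le.1 (int_bd (q := fun r => g' (φ r x) (Yo h s x y r)) (fun r => hK _ _) t)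
  rw [← Real.exp_neg]
  exact ⟨Real.exp_le_exp.2 h1.1, Real.exp_le_exp.2 h1.2⟩

/-- the solutions are increasing in the parameter -/
theorem Yo_par (h : Fld φ g g') {K : ℝ} (hK : ∀ x y, |g' x y| ≤ K) {s s' : ℝ} (hs : s ≤ s') (x : B)
    (y : ℝ) {t : ℝ} (ht : 0 ≤ t) :
    t * Real.exp (-(2 * K * t)) * (s' - s) ≤ Yo h s' x y t - Yo h s x y t := by
  have hK0 : 0 ≤ K := (abs_nonneg _).trans (hK x 0)
  have hφ : Continuous fun r => φ r x := h.flow.cont.comp (continuous_id.prodMk continuous_const)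
  set q : ℝ → ℝ := fun r => mea g' (φ r x) (Yo h s x y r) (Yo h s' x y r) with hqd
  have hq : Continuous q :=
    (mea_cont h).comp (hφ.prodMk ((Yo_ct h s x y).prodMk (Yo_ct h s' x y)))
  have hqb : ∀ r, |q r| ≤ K := fun r => mea_bd hK _ _ _
  have h1 := lin (z := fun t => Yo h s' x y t - Yo h s x y t) (e := s' - s) hq (fun t => by
    have h2 := (Yo_der h s' x y t).sub (Yo_der h s x y t)
    have h3 := mea_spec h (φ t x) (Yo h s x y t) (Yo h s' x y t)
    show HasDerivAt _ (mea g' (φ t x) (Yo h s x y t) (Yo h s' x y t) *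
      (Yo h s' x y t - Yo h s x y t) + (s' - s)) t
    rw [← h3]
    exact h2.congr_deriv (by ring))
  set w : ℝ → ℝ := fun t => (Yo h s' x y t - Yo h s x y t) * Real.exp (-∫ r in (0 : ℝ)..t, q r)
    with hw
  have h2 : (s' - s) * Real.exp (-(K * t)) * (t - 0) ≤ w t - w 0 := by
    refine (convex_Icc (0 : ℝ) t).mul_sub_le_image_sub_of_le_deriv
      (fun r _ => (h1 r).continuousAt.continuousWithinAt)
      (fun r _ => (h1 r).differentiableAt.differentiableWithinAt) ?_ 0 ⟨le_refl _, ht⟩ t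
      ⟨ht, le_refl _⟩ ht
    intro r hr
    rw [interior_Icc] at hr
    rw [(h1 r).deriv]
    refine mul_le_mul_of_nonneg_left (Real.exp_le_exp.2 ?_) (sub_nonneg.2 hs)
    have h3 := (abs_le.1 (int_bd hqb r)).2
    rw [abs_of_pos hr.1] at h3
    have h4 : K * r ≤ K * t := mul_le_mul_of_nonneg_left hr.2.le hK0
    linarith
  have hw0 : w 0 = 0 := by
    simp only [hw, Yo_zero, sub_self, zero_mul]
  rw [hw0, sub_zero, sub_zero] at h2
  have h3 : Yo h s' x y t - Yo h s x y t = w t * Real.exp (∫ r in (0 : ℝ)..t, q r) := by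
    simp only [hw]
    rw [mul_assoc, ← Real.exp_add, neg_add_cancel, Real.exp_zero, mul_one]
  rw [h3]
  have h4 : Real.exp (-(K * t)) ≤ Real.exp (∫ r in (0 : ℝ)..t, q r) := by
    refine Real.exp_le_exp.2 ?_
    have h5 := (abs_le.1 (int_bd hqb t)).1
    rw [abs_of_nonneg ht] at h5
    exact h5
  have h6 : 0 ≤ (s' - s) * Real.exp (-(K * t)) * t :=
    mul_nonneg (mul_nonneg (sub_nonneg.2 hs) (Real.exp_pos _).le) ht
  have h7 : ((s' - s) * Real.exp (-(K * t)) * t) * Real.exp (-(K * t)) ≤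
      w t * Real.exp (∫ r in (0 : ℝ)..t, q r) :=
    mul_le_mul h2 h4 (Real.exp_pos _).le (h6.trans h2)
  refine le_trans (le_of_eq ?_) h7
  have h8 : Real.exp (-(2 * K * t)) = Real.exp (-(K * t)) * Real.exp (-(K * t)) := by
    rw [← Real.exp_add]
    congr 1
    ring
  rw [h8]
  ring

end

end Pool.Agent.V5helper25.PB
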