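import Pool.Agent.TH525.PF.Fin

/-!
# MP_3a2b62: monotone families of fibre maps over an automorphism of a probability space
-/

set_option autoImplicit false

open Set Filter Topology MeasureTheory

namespace Pool.Agent.V5helper25.PB

open Pool.Agent.TH525.PF

/-- A family of fibre maps over `T`, increasing in the parameter. -/
structure Fam (X : Type*) [MeasurableSpace X] where
  T : X ≃ᵐ X
  F : ℝ → X → ℝ → ℝ
  G : ℝ → X → ℝ → ℝ
  L : ℝ
  c : ℝ
  mF : ∀ σ, Measurable (Function.uncurry (F σ))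
  mG : ∀ σ, Measurable (Function.uncurry (G σ))
  der : ∀ σ x y, HasDerivAt (F σ x) (G σ x y) y
  L1 : 1 ≤ L
  lo : ∀ σ x y, L⁻¹ ≤ G σ x y
  hi : ∀ σ x y, G σ x y ≤ L
  mod : ∀ (σ c : ℝ), 0 < c → ∃ ρ : ℝ, 0 < ρ ∧ ∀ x y y', |y - y'| < ρ →
    |Real.log (G σ x y) - Real.log (G σ x y')| ≤ c
  cpos : 0 < c
  mono : ∀ σ σ' x y, σ ≤ σ' → c * (σ' - σ) ≤ F σ' x y - F σ x y
  contF : ∀ x, Continuous fun q : ℝ × ℝ => F q.1 x q.2
  contG : ∀ x, Continuous fun q : ℝ × ℝ => G q.1 x q.2

namespace Fam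

variable {X : Type*} [MeasurableSpace X] (S : Fam X) {m : Measure X}

/-- the system at the parameter `σ` -/
def sy (σ : ℝ) : Sys X where
  T := S.T
  F := S.F σ
  G := S.G σ
  L := S.L
  mF := S.mF σ
  mG := S.mG σ
  der := S.der σ
  L1 := S.L1
  lo := S.lo σ
  hi := S.hi σ
  mod := S.mod σ

@[simp] theorem sy_T (σ : ℝ) : (S.sy σ).T = S.T := rfl
@[simp] theorem sy_F (σ : ℝ) : (S.sy σ).F = S.F σ := rfl
@[simp] theorem sy_G (σ : ℝ) : (S.sy σ).G = S.G σ := rfl
@[simp] theorem sy_L (σ : ℝ) : (S.sy σ).L = S.L := rfl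

theorem lt {σ σ' : ℝ} (h : σ < σ') (x : X) (y : ℝ) : S.F σ x y < S.F σ' x y := by
  have h1 := S.mono σ σ' x y h.le
  have h2 := mul_pos S.cpos (sub_pos.2 h)
  linarith

theorem le {σ σ' : ℝ} (h : σ ≤ σ') (x : X) (y : ℝ) : S.F σ x y ≤ S.F σ' x y := by
  have h1 := S.mono σ σ' x y h
  have h2 := mul_nonneg S.cpos.le (sub_nonneg.2 h)
  linarith

variable [IsProbabilityMeasure m]

/-- dichotomy for graphs at different parameters -/
theorem tri2 (erg : Ergodic S.T m) {s s' : ℝ} (hs : s < s') {φ ψ : X → ℝ}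
    (hφ : (S.sy s).Gr m φ) (hψ : (S.sy s').Gr m ψ) :
    (∀ᵐ x ∂m, φ x < ψ x) ∨ (∀ᵐ x ∂m, ψ x < φ x) := by
  have mA : MeasurableSet {x | φ x ≤ ψ x} := measurableSet_le hφ.1 hψ.1
  have h1 : ∀ᵐ x ∂m, φ x ≤ ψ x → φ (S.T x) < ψ (S.T x) := by
    filter_upwards [hφ.2, hψ.2] with x h1 h2 h3
    simp only [sy_F, sy_T] at h1 h2
    have h4 := ((S.sy s).strict x).monotone h3
    have h5 := S.lt hs x (ψ x)
    simp only [sy_F] at h4
    linarith
  have h2 : {x | φ x ≤ ψ x} ≤ᵐ[m] S.T ⁻¹' {x | φ x ≤ ψ x} := by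
    filter_upwards [h1] with x h h'
    exact (h h').le
  rcases erg.ae_empty_or_univ_of_ae_le_preimage mA.nullMeasurableSet h2 with h | h
  · right
    have := measure_eq_zero_iff_ae_notMem.1 (ae_eq_empty.1 h)
    filter_upwards [this] with x hx
    exact not_le.1 hx
  · left
    have h3 : ∀ᵐ x ∂m, φ x ≤ ψ x := by
      have := ae_eq_univ.1 h
      rwa [ae_iff]
    have h4 : ∀ᵐ x ∂m, φ (S.T x) < ψ (S.T x) := by
      filter_upwards [h1, h3] with x a b using a b
    have h5 : ∀ᵐ x ∂(m.map S.T), φ x < ψ x := by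
      rw [ae_map_iff S.T.measurable.aemeasurable (measurableSet_lt hφ.1 hψ.1)]
      exact h4
    rwa [erg.toMeasurePreserving.map_eq] at h5

end Fam

variable {X : Type*} [MeasurableSpace X] {m : Measure X} [IsProbabilityMeasure m]

theorem key_pos {T : X → X} (hT : MeasurePreserving T m m) {D q : X → ℝ} {L ε κ : ℝ} (hL : 1 ≤ L)
    (mD : Measurable D) (mq : Measurable q) (hD : ∀ᵐ x ∂m, 0 < D x)
    (hq : ∀ᵐ x ∂m, L⁻¹ ≤ q x ∧ q x ≤ L) (hε : 0 < ε)
    (H : ∀ᵐ x ∂m, q x * D x + ε ≤ D (T x)) (hκ : -κ ≤ ∫ x, Real.log (q x) ∂m) :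
    ∫ x, min (ε / D x) 1 ∂m ≤ (L + 1) * κ := by
  have i1 := int_u mD hD hε
  have i2 := int_logq hL mq hq
  have h1 := int_le_zero hT (g := fun x => Real.log (D x))
    (h := fun x => Real.log (q x) + min (ε / D x) 1 / (L + 1)) mD.log (i2.add (i1.div_const _)) (by
      filter_upwards [hD, hq, H] with x hx hqx hH
      have hp : 0 < L⁻¹ := inv_pos.2 (by linarith)
      have q0 : 0 < q x := hp.trans_le hqx.1
      have e0 : 0 < ε / D x := div_pos hε hx
      set u := min (ε / D x) 1 with hu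
      have u0 : 0 < u := lt_min e0 one_pos
      have u1 : u ≤ 1 := min_le_right _ _
      have e1 : Real.log (q x + ε / D x) ≤ Real.log (D (T x)) - Real.log (D x) := by
        have h0 : 0 < q x * D x + ε := by positivity
        have h00 : Real.log (q x * D x + ε) ≤ Real.log (D (T x)) := Real.log_le_log h0 hH
        have h01 : Real.log (q x + ε / D x) = Real.log (q x * D x + ε) - Real.log (D x) := by
          rw [← Real.log_div h0.ne' hx.ne']
          congr 1
          field_simp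
        rw [h01]
        linarith
      have e2 : Real.log (q x + u) - Real.log (q x) = Real.log ((q x + u) / q x) := by
        rw [Real.log_div (by positivity) q0.ne']
      have e3 := Real.one_sub_inv_le_log_of_pos (show 0 < (q x + u) / q x by positivity)
      have e4 : 1 - ((q x + u) / q x)⁻¹ = u / (q x + u) := by field_simp; ring
      have e5 : u / (L + 1) ≤ u / (q x + u) := by
        apply div_le_div_of_nonneg_left u0.le (by positivity)
        linarith [hqx.2]
      have e6 : Real.log (q x + u) ≤ Real.log (q x + ε / D x) :=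
        Real.log_le_log (by positivity) (by have := min_le_left (ε / D x) 1; linarith)
      linarith)
  rw [integral_add i2 (i1.div_const _), integral_div] at h1
  have hL1 : 0 < L + 1 := by linarith
  have h2 : (∫ x, min (ε / D x) 1 ∂m) / (L + 1) ≤ κ := by linarith
  rw [div_le_iff₀ hL1] at h2
  linarith

theorem key_neg {T : X → X} (hT : MeasurePreserving T m m) {D q : X → ℝ} {L ε κ : ℝ} (hL : 1 ≤ L)
    (mD : Measurable D) (mq : Measurable q) (hD : ∀ᵐ x ∂m, 0 < D x)
    (hq : ∀ᵐ x ∂m, L⁻¹ ≤ q x ∧ q x ≤ L) (hε : 0 < ε)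
    (H : ∀ᵐ x ∂m, D (T x) ≤ q x * D x - ε) (hκ : ∫ x, Real.log (q x) ∂m ≤ κ) :
    ∫ x, min (ε / D x) 1 ∂m ≤ L * κ := by
  have i1 := int_u mD hD hε
  have i2 := int_logq hL mq hq
  have hL0 : 0 < L := by linarith
  have hDT : ∀ᵐ x ∂m, 0 < D (T x) := hT.quasiMeasurePreserving.ae hD
  have h1 := zero_le_int hT (g := fun x => Real.log (D x))
    (h := fun x => Real.log (q x) - min (ε / D x) 1 / L) mD.log (i2.sub (i1.div_const _)) (by
      filter_upwards [hD, hq, H, hDT] with x hx hqx hH hxT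
      have hp : 0 < L⁻¹ := inv_pos.2 (by linarith)
      have q0 : 0 < q x := hp.trans_le hqx.1
      have e0 : 0 < ε / D x := div_pos hε hx
      set u := min (ε / D x) 1 with hu
      have u0 : 0 < u := lt_min e0 one_pos
      have e7 : 0 < q x - ε / D x := by
        have h0 : 0 < q x * D x - ε := hxT.trans_le hH
        have e8 : (q x * D x - ε) / D x = q x - ε / D x := by field_simp
        rw [← e8]
        exact div_pos h0 hx
      have e1 : Real.log (D (T x)) - Real.log (D x) ≤ Real.log (q x - ε / D x) := by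
        rw [← Real.log_div hxT.ne' hx.ne']
        refine Real.log_le_log (div_pos hxT hx) ?_
        have e8 : q x - ε / D x = (q x * D x - ε) / D x := by field_simp
        rw [e8]
        exact div_le_div_of_nonneg_right hH hx.le
      have e2 : Real.log (q x - ε / D x) - Real.log (q x) = Real.log ((q x - ε / D x) / q x) := by
        rw [Real.log_div e7.ne' q0.ne']
      have e3 := Real.log_le_sub_one_of_pos (show 0 < (q x - ε / D x) / q x by positivity)
      have e4 : (q x - ε / D x) / q x - 1 = - (ε / D x / q x) := by field_simp; ring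
      have e5 : u / L ≤ ε / D x / q x := by
        calc u / L ≤ ε / D x / L := by
              apply div_le_div_of_nonneg_right (min_le_left _ _) hL0.le
          _ ≤ ε / D x / q x := div_le_div_of_nonneg_left e0.le q0 hqx.2
      linarith)
  rw [integral_sub i2 (i1.div_const _), integral_div] at h1
  have h2 : (∫ x, min (ε / D x) 1 ∂m) / L ≤ κ := by linarith
  rw [div_le_iff₀ hL0] at h2
  linarith

namespace Fam

variable (S : Fam X)

theorem sgn (erg : Ergodic S.T m) {φ φ' : X → ℝ} {σ₀ σ₁ : ℝ} (hφ : (S.sy σ₀).Gr m φ)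
    (hσ : σ₁ ≠ σ₀) (hφ' : (S.sy σ₁).Gr m φ') :
    (∀ᵐ x ∂m, φ x < φ' x) ∨ (∀ᵐ x ∂m, φ' x < φ x) := by
  rcases lt_or_gt_of_ne hσ with h | h
  · exact (S.tri2 erg h hφ' hφ).symm
  · exact S.tri2 erg h hφ hφ'

/-- the estimate for pairs of graphs -/
theorem pair (erg : Ergodic S.T m) {φ φ' : X → ℝ} {σ₀ σ₁ : ℝ} (hφ : (S.sy σ₀).Gr m φ)
    (hσ : σ₁ ≠ σ₀) (hφ' : (S.sy σ₁).Gr m φ') (h0 : (S.sy σ₀).ex m φ = 0) {c ρ : ℝ} (hc : 0 ≤ c)
    (hρ : ∀ x y y', |y - y'| < ρ → |Real.log (S.G σ₀ x y) - Real.log (S.G σ₀ x y')| ≤ c) :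
    ∫ x, min (S.c * |σ₁ - σ₀| / |φ' x - φ x|) 1 ∂m ≤
      (S.L + 1) * (c + m.real {x | ρ ≤ |φ' x - φ x|} * (2 * Real.log S.L)) := by
  have hsgn := S.sgn erg hφ hσ hφ'
  have hne : ∀ᵐ x ∂m, φ x ≠ φ' x := by
    rcases hsgn with h | h
    · filter_upwards [h] with x hx using hx.ne
    · filter_upwards [h] with x hx using hx.ne'
  set q := (S.sy σ₀).quo φ φ' with hqdef
  have mq : Measurable q := (S.sy σ₀).quo_meas hφ.1 hφ'.1
  have hq : ∀ᵐ x ∂m, S.L⁻¹ ≤ q x ∧ q x ≤ S.L := by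
    filter_upwards [hne] with x hx
    obtain ⟨ξ, -, -, h3⟩ := (S.sy σ₀).quo_eq hx
    rw [hqdef, h3]
    exact ⟨S.lo _ _ _, S.hi _ _ _⟩
  have iq := int_logq S.L1 mq hq
  have iG := (S.sy σ₀).int_log (m := m) hφ.1
  have mA : MeasurableSet {x | ρ ≤ |φ' x - φ x|} :=
    measurableSet_le measurable_const ((hφ'.1.sub hφ.1).abs)
  set κ := c + m.real {x | ρ ≤ |φ' x - φ x|} * (2 * Real.log S.L) with hκ
  have hlogL : 0 ≤ Real.log S.L := Real.log_nonneg S.L1
  have hκ0 : 0 ≤ κ := by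
    have h1 : 0 ≤ m.real {x | ρ ≤ |φ' x - φ x|} := measureReal_nonneg
    rw [hκ]
    positivity
  have hint : |∫ x, Real.log (q x) ∂m| ≤ κ := by
    have e1 : ∫ x, Real.log (q x) ∂m =
        ∫ x, (Real.log (q x) - Real.log ((S.sy σ₀).G x (φ x))) ∂m := by
      rw [integral_sub iq iG]
      have : ∫ x, Real.log ((S.sy σ₀).G x (φ x)) ∂m = 0 := h0
      rw [this, sub_zero]
    rw [e1]
    refine (abs_integral_le_integral_abs).trans ?_
    have e2 : ∫ x, |Real.log (q x) - Real.log ((S.sy σ₀).G x (φ x))| ∂m ≤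
        ∫ x, (c + {x | ρ ≤ |φ' x - φ x|}.indicator (fun _ => 2 * Real.log S.L) x) ∂m := by
      refine integral_mono_ae (iq.sub iG).abs ?_ ?_
      · exact (integrable_const _).add ((integrable_const _).indicator mA)
      · filter_upwards [hne] with x hx
        exact (S.sy σ₀).quo_log hx hc hρ
    refine e2.trans (le_of_eq ?_)
    rw [integral_add (integrable_const _) ((integrable_const _).indicator mA), integral_const,
      integral_indicator_const _ mA]
    simp [hκ]
  have mD : Measurable fun x => |φ' x - φ x| := (hφ'.1.sub hφ.1).abs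
  have hD : ∀ᵐ x ∂m, 0 < |φ' x - φ x| := by
    filter_upwards [hne] with x hx
    exact abs_pos.2 (sub_ne_zero.2 hx.symm)
  have hstep : ∀ᵐ x ∂m, φ' (S.T x) - φ (S.T x) =
      q x * (φ' x - φ x) + (S.F σ₁ x (φ' x) - S.F σ₀ x (φ' x)) := by
    filter_upwards [hφ.2, hφ'.2, hne] with x h1 h2 h3
    simp only [sy_F, sy_T] at h1 h2
    rw [hqdef, (S.sy σ₀).quo_mul h3, ← h1, ← h2, sy_F]
    ring
  have hL : S.L * κ ≤ (S.L + 1) * κ := by nlinarith
  have habs := abs_le.1 hint
  have hT := erg.toMeasurePreserving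
  have hεp : 0 < S.c * |σ₁ - σ₀| := mul_pos S.cpos (abs_pos.2 (sub_ne_zero.2 hσ))
  rcases hsgn with hs | hs
  · have hsT : ∀ᵐ x ∂m, φ (S.T x) < φ' (S.T x) := hT.quasiMeasurePreserving.ae hs
    rcases lt_or_gt_of_ne hσ with h | h
    · refine (key_neg hT S.L1 mD mq hD hq hεp ?_ habs.2).trans hL
      filter_upwards [hs, hsT, hstep] with x a b d
      rw [abs_of_pos (sub_pos.2 a), abs_of_pos (sub_pos.2 b), abs_of_neg (sub_neg.2 h), d]
      have := S.mono σ₁ σ₀ x (φ' x) h.le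
      linarith
    · refine key_pos hT S.L1 mD mq hD hq hεp ?_ habs.1
      filter_upwards [hs, hsT, hstep] with x a b d
      rw [abs_of_pos (sub_pos.2 a), abs_of_pos (sub_pos.2 b), abs_of_pos (sub_pos.2 h), d]
      have := S.mono σ₀ σ₁ x (φ' x) h.le
      linarith
  · have hsT : ∀ᵐ x ∂m, φ' (S.T x) < φ (S.T x) := hT.quasiMeasurePreserving.ae hs
    rcases lt_or_gt_of_ne hσ with h | h
    · refine key_pos hT S.L1 mD mq hD hq hεp ?_ habs.1
      filter_upwards [hs, hsT, hstep] with x a b d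
      rw [abs_of_neg (sub_neg.2 a), abs_of_neg (sub_neg.2 b), abs_of_neg (sub_neg.2 h), d]
      have := S.mono σ₁ σ₀ x (φ' x) h.le
      linarith
    · refine (key_neg hT S.L1 mD mq hD hq hεp ?_ habs.2).trans hL
      filter_upwards [hs, hsT, hstep] with x a b d
      rw [abs_of_neg (sub_neg.2 a), abs_of_neg (sub_neg.2 b), abs_of_pos (sub_pos.2 h), d]
      have := S.mono σ₀ σ₁ x (φ' x) h.le
      linarith

end Fam

end Pool.Agent.V5helper25.PB
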