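import Pool.Agent.V5helper25.PB.Ode

/-!
# MP_3a2b62, Q2: the solutions of a scalar differential equation over a flow
-/

set_option autoImplicit false
set_option linter.unusedSectionVars false
set_option linter.unusedVariables false

open scoped Topology NNReal
open Filter Set Metric MeasureTheory

universe u

namespace Pool.Agent.V5helper25.PB

/-- The data of the equation `y' = g (φ_t x, y) + s` over the flow `φ`: `g` is continuous, periodic in
`y`, with a continuous derivative `g'` in `y`. -/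
structure Fld {B : Type u} [TopologicalSpace B] (φ : ℝ → B → B) (g g' : B → ℝ → ℝ) : Prop where
  flow : FlowOn B φ
  gc : Continuous fun q : B × ℝ => g q.1 q.2
  dc : Continuous fun q : B × ℝ => g' q.1 q.2
  per : ∀ x y, g x (y + 1) = g x y
  der : ∀ x y, HasDerivAt (g x) (g' x y) y

section

variable {B : Type u} [MetricSpace B] [CompactSpace B] {φ : ℝ → B → B} {g g' : B → ℝ → ℝ}

theorem bounded_of_periodic {k : B → ℝ → ℝ} (hk : Continuous fun q : B × ℝ => k q.1 q.2)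
    (per : ∀ x y, k x (y + 1) = k x y) : ∃ C : ℝ, 0 ≤ C ∧ ∀ x y, |k x y| ≤ C := by
  have hK : IsCompact ((univ : Set B) ×ˢ Icc (0 : ℝ) 1) := isCompact_univ.prod isCompact_Icc
  obtain ⟨C, hC⟩ := hK.exists_bound_of_continuousOn hk.continuousOn
  refine ⟨|C|, abs_nonneg _, fun x y => ?_⟩
  have h1 := hC (x, Int.fract y) ⟨mem_univ _, Int.fract_nonneg y, (Int.fract_lt_one y).le⟩
  have h2 : Function.Periodic (k x) 1 := fun u => per x u
  have h3 : k x (Int.fract y) = k x y := by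
    have := h2.sub_int_mul_eq (x := y) ⌊y⌋
    rw [mul_one] at this
    exact this
  rw [Real.norm_eq_abs] at h1
  rw [← h3]
  exact h1.trans (le_abs_self C)

theorem Fld.dper (h : Fld φ g g') (x : B) (y : ℝ) : g' x (y + 1) = g' x y := by
  have e1 : HasDerivAt (fun t => g x (t + 1)) (g' x (y + 1)) y := (h.der x (y + 1)).comp_add_const y 1
  have e2 : (fun t => g x (t + 1)) = g x := funext fun t => h.per x t
  rw [e2] at e1
  exact e1.unique (h.der x y)

theorem Fld.bd (h : Fld φ g g') : ∃ K : ℝ≥0, 0 < K ∧ (∀ x y, |g x y| ≤ K) ∧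
    (∀ x y, |g' x y| ≤ K) ∧ ∀ x, LipschitzWith K (g x) := by
  obtain ⟨C, hC0, hC⟩ := bounded_of_periodic h.gc h.per
  obtain ⟨D, hD0, hD⟩ := bounded_of_periodic h.dc h.dper
  obtain ⟨K, hK⟩ : ∃ K : ℝ≥0, (K : ℝ) = C + D + 1 :=
    ⟨Real.toNNReal (C + D + 1), Real.coe_toNNReal _ (by positivity)⟩
  refine ⟨K, ?_, ?_, ?_, ?_⟩
  · rw [← NNReal.coe_pos, hK]
    positivity
  · intro x y
    rw [hK]
    linarith [hC x y]
  · intro x y
    rw [hK]
    linarith [hD x y]
  · intro x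
    refine lipschitzWith_of_nnnorm_deriv_le (fun y => (h.der x y).differentiableAt) fun y => ?_
    rw [(h.der x y).deriv, ← NNReal.coe_le_coe, coe_nnnorm, Real.norm_eq_abs, hK]
    linarith [hD x y]

theorem Fld.fc (h : Fld φ g g') (x : B) (y : ℝ) : Continuous fun t => g (φ t x) y :=
  h.gc.comp ((h.flow.cont.comp (continuous_id.prodMk continuous_const)).prodMk continuous_const)

theorem exists_sol (h : Fld φ g g') (s : ℝ) (x : B) (y : ℝ) :
    ∃ u : ℝ → ℝ, u 0 = y ∧ ∀ t, HasDerivAt u (g (φ t x) (u t) + s) t := by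
  obtain ⟨K, hK0, hK1, hK2, hK3⟩ := h.bd
  obtain ⟨M, hM⟩ : ∃ M : ℝ≥0, (M : ℝ) = K + |s| :=
    ⟨Real.toNNReal (K + |s|), Real.coe_toNNReal _ (by positivity)⟩
  refine exists_glob (fun t u => g (φ t x) u + s) (fun u => (h.fc x u).add continuous_const)
    (K := K) (M := M) (fun t => ?_) (fun t u => ?_) y
  · have := (hK3 (φ t x)).add (LipschitzWith.const s)
    rwa [add_zero] at this
  · show |g (φ t x) u + s| ≤ M
    rw [hM]
    have := abs_add_le (g (φ t x) u) s
    linarith [hK1 (φ t x) u]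

theorem sol_unique (h : Fld φ g g') {s : ℝ} {x : B} {u w : ℝ → ℝ}
    (hu : ∀ t, HasDerivAt u (g (φ t x) (u t) + s) t)
    (hw : ∀ t, HasDerivAt w (g (φ t x) (w t) + s) t) {t₀ : ℝ} (h0 : u t₀ = w t₀) : u = w := by
  obtain ⟨K, hK0, hK1, hK2, hK3⟩ := h.bd
  refine ODE_solution_unique_univ (v := fun t u => g (φ t x) u + s) (s := fun _ => univ) (K := K)
    (t₀ := t₀) (fun t => ?_) (fun t => ⟨hu t, mem_univ _⟩) (fun t => ⟨hw t, mem_univ _⟩) h0
  have := (hK3 (φ t x)).add (LipschitzWith.const s)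
  rw [add_zero] at this
  exact this.lipschitzOnWith

/-- the solution with the initial value `y` over the orbit of `x` -/
noncomputable def Yo (h : Fld φ g g') (s : ℝ) (x : B) (y : ℝ) : ℝ → ℝ :=
  Classical.choose (exists_sol h s x y)

theorem Yo_zero (h : Fld φ g g') (s : ℝ) (x : B) (y : ℝ) : Yo h s x y 0 = y :=
  (Classical.choose_spec (exists_sol h s x y)).1

theorem Yo_der (h : Fld φ g g') (s : ℝ) (x : B) (y t : ℝ) :
    HasDerivAt (Yo h s x y) (g (φ t x) (Yo h s x y t) + s) t :=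
  (Classical.choose_spec (exists_sol h s x y)).2 t

theorem Yo_eq (h : Fld φ g g') {s : ℝ} {x : B} {y : ℝ} {u : ℝ → ℝ} (h0 : u 0 = y)
    (hu : ∀ t, HasDerivAt u (g (φ t x) (u t) + s) t) : Yo h s x y = u :=
  sol_unique h (Yo_der h s x y) hu (t₀ := 0) (by rw [Yo_zero, h0])

theorem Yo_one (h : Fld φ g g') (s : ℝ) (x : B) (y t : ℝ) :
    Yo h s x (y + 1) t = Yo h s x y t + 1 := by
  have := Yo_eq h (s := s) (x := x) (y := y + 1) (u := fun t => Yo h s x y t + 1)
    (by show Yo h s x y 0 + 1 = y + 1; rw [Yo_zero]) (fun t => by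
      have h1 := (Yo_der h s x y t).add_const (1 : ℝ)
      rwa [← h.per (φ t x) (Yo h s x y t)] at h1)
  exact congrFun this t

theorem Yo_add (h : Fld φ g g') (s : ℝ) (x : B) (y t t' : ℝ) :
    Yo h s x y (t + t') = Yo h s (φ t x) (Yo h s x y t) t' := by
  have := Yo_eq h (s := s) (x := φ t x) (y := Yo h s x y t) (u := fun r => Yo h s x y (t + r))
    (by show Yo h s x y (t + 0) = _; rw [add_zero]) (fun r => by
      have h1 := (Yo_der h s x y (t + r)).comp_const_add t r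
      rwa [show φ (t + r) x = φ r (φ t x) by rw [add_comm, h.flow.add]] at h1)
  exact (congrFun this t').symm

/-- the reversed equation -/
theorem Fld.rev (h : Fld φ g g') : Fld (fun t => φ (-t)) (fun x y => -g x y) (fun x y => -g' x y) where
  flow := ⟨h.flow.cont.comp ((continuous_fst.neg).prodMk continuous_snd),
    fun y => by show φ (-0) y = y; rw [neg_zero, h.flow.zero],
    fun s t y => by show φ (-(s + t)) y = φ (-s) (φ (-t) y); rw [neg_add, h.flow.add]⟩
  gc := h.gc.neg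
  dc := h.dc.neg
  per := fun x y => by rw [h.per]
  der := fun x y => (h.der x y).neg

theorem Yo_rev (h : Fld φ g g') (s : ℝ) (x : B) (y t : ℝ) :
    Yo h.rev (-s) x y t = Yo h s x y (-t) := by
  have := Yo_eq h.rev (s := -s) (x := x) (y := y) (u := fun r => Yo h s x y (-r))
    (by show Yo h s x y (-0) = y; rw [neg_zero, Yo_zero]) (fun r => by
      have h1 := (Yo_der h s x y (-r)).scomp r (hasDerivAt_neg r)
      have e : (-1 : ℝ) • (g (φ (-r) x) (Yo h s x y (-r)) + s) =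
          -g (φ (-r) x) (Yo h s x y (-r)) + -s := by
        rw [smul_eq_mul]; ring
      rw [e] at h1
      exact h1)
  exact congrFun this t

/-- continuity in the parameters, for positive times -/
theorem Yo_fw (h : Fld φ g g') (s₀ : ℝ) (x₀ : B) (y₀ T : ℝ) {ε : ℝ} (hε : 0 < ε) :
    ∀ᶠ q : ℝ × B × ℝ in 𝓝 (s₀, x₀, y₀), ∀ t ∈ Icc 0 T,
      |Yo h q.1 q.2.1 q.2.2 t - Yo h s₀ x₀ y₀ t| ≤ ε := by
  obtain ⟨K, hK0, hK1, hK2, hK3⟩ := h.bd
  have hKp : (0 : ℝ) < K := by exact_mod_cast hK0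
  set η : ℝ := ε / ((1 + 2 / K) * Real.exp (K * T)) with hη
  have hηp : 0 < η := by positivity
  have h1 : ∀ᶠ x in 𝓝 x₀, ∀ r ∈ Icc (0 : ℝ) T ×ˢ Icc (0 : ℝ) 1,
      |g (φ r.1 x) r.2 - g (φ r.1 x₀) r.2| < η := by
    refine (isCompact_Icc.prod isCompact_Icc).eventually_forall_of_forall_eventually ?_
    intro r _
    have hc : Continuous fun z : B × ℝ × ℝ => |g (φ z.2.1 z.1) z.2.2 - g (φ z.2.1 x₀) z.2.2| := by
      refine Continuous.abs (Continuous.sub ?_ ?_)
      · exact h.gc.comp ((h.flow.cont.comp ((continuous_fst.comp continuous_snd).prodMk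
          continuous_fst)).prodMk (continuous_snd.comp continuous_snd))
      · exact h.gc.comp ((h.flow.cont.comp ((continuous_fst.comp continuous_snd).prodMk
          continuous_const)).prodMk (continuous_snd.comp continuous_snd))
    refine hc.continuousAt.eventually (gt_mem_nhds ?_)
    show |g (φ r.1 x₀) r.2 - g (φ r.1 x₀) r.2| < η
    rw [sub_self, abs_zero]
    exact hηp
  have h2 : ∀ᶠ q : ℝ × B × ℝ in 𝓝 (s₀, x₀, y₀), ∀ r ∈ Icc (0 : ℝ) T ×ˢ Icc (0 : ℝ) 1,
      |g (φ r.1 q.2.1) r.2 - g (φ r.1 x₀) r.2| < η :=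
    ((show Continuous fun q : ℝ × B × ℝ => q.2.1 from
      continuous_fst.comp continuous_snd).tendsto (s₀, x₀, y₀)).eventually h1
  have h3 : ∀ᶠ q : ℝ × B × ℝ in 𝓝 (s₀, x₀, y₀), |q.1 - s₀| < η := by
    have hc : Continuous fun q : ℝ × B × ℝ => |q.1 - s₀| := (continuous_fst.sub continuous_const).abs
    exact hc.continuousAt.eventually (gt_mem_nhds (by
      show |s₀ - s₀| < η
      rw [sub_self, abs_zero]; exact hηp))
  have h4 : ∀ᶠ q : ℝ × B × ℝ in 𝓝 (s₀, x₀, y₀), |q.2.2 - y₀| < η := by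
    have hc : Continuous fun q : ℝ × B × ℝ => |q.2.2 - y₀| :=
      ((continuous_snd.comp continuous_snd).sub continuous_const).abs
    exact hc.continuousAt.eventually (gt_mem_nhds (by
      show |y₀ - y₀| < η
      rw [sub_self, abs_zero]; exact hηp))
  filter_upwards [h2, h3, h4] with q a2 a3 a4 t ht
  have hlip : ∀ t, LipschitzWith K fun u => g (φ t x₀) u + s₀ := fun t => by
    have := (hK3 (φ t x₀)).add (LipschitzWith.const s₀)
    rwa [add_zero] at this
  have h5 := gron (v := fun t u => g (φ t x₀) u + s₀) (w := fun t u => g (φ t q.2.1) u + q.1) hK0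
    hlip (Yo_der h s₀ x₀ y₀) (Yo_der h q.1 q.2.1 q.2.2) (T := T) (δ := η) (ε := 2 * η)
    (by rw [Yo_zero, Yo_zero, abs_sub_comm]; exact a4.le) (by
      intro r hr u
      have e1 := a2 (r, Int.fract u) ⟨hr, Int.fract_nonneg u, (Int.fract_lt_one u).le⟩
      have e2 : ∀ z, g z (Int.fract u) = g z u := by
        intro z
        have h2 : Function.Periodic (g z) 1 := fun u => h.per z u
        have := h2.sub_int_mul_eq (x := u) ⌊u⌋
        rw [mul_one] at this
        exact this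
      simp only [e2] at e1
      have e3 : g (φ r q.2.1) u + q.1 - (g (φ r x₀) u + s₀) =
          (g (φ r q.2.1) u - g (φ r x₀) u) + (q.1 - s₀) := by ring
      show |g (φ r q.2.1) u + q.1 - (g (φ r x₀) u + s₀)| ≤ 2 * η
      rw [e3]
      have := abs_add_le (g (φ r q.2.1) u - g (φ r x₀) u) (q.1 - s₀)
      linarith) t ht
  rw [abs_sub_comm]
  refine h5.trans (le_of_eq ?_)
  rw [hη]
  field_simp

theorem Yo_cont (h : Fld φ g g') :
    Continuous fun q : ℝ × B × ℝ × ℝ => Yo h q.1 q.2.1 q.2.2.1 q.2.2.2 := by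
  rw [continuous_iff_continuousAt]
  rintro ⟨s₀, x₀, y₀, t₀⟩
  rw [ContinuousAt, Metric.tendsto_nhds]
  intro ε hε
  set T := |t₀| + 1 with hT
  have hP : Tendsto (fun q : ℝ × B × ℝ × ℝ => (q.1, q.2.1, q.2.2.1)) (𝓝 (s₀, x₀, y₀, t₀))
      (𝓝 (s₀, x₀, y₀)) := by
    have : Continuous fun q : ℝ × B × ℝ × ℝ => (q.1, q.2.1, q.2.2.1) := by fun_prop
    exact this.tendsto _
  have hQ : Tendsto (fun q : ℝ × B × ℝ × ℝ => (-q.1, q.2.1, q.2.2.1)) (𝓝 (s₀, x₀, y₀, t₀))
      (𝓝 (-s₀, x₀, y₀)) := by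
    have : Continuous fun q : ℝ × B × ℝ × ℝ => (-q.1, q.2.1, q.2.2.1) := by fun_prop
    exact this.tendsto _
  have h1 := hP.eventually (Yo_fw h s₀ x₀ y₀ T (half_pos (half_pos hε)))
  have h2 := hQ.eventually (Yo_fw h.rev (-s₀) x₀ y₀ T (half_pos (half_pos hε)))
  have h3 : ∀ᶠ q : ℝ × B × ℝ × ℝ in 𝓝 (s₀, x₀, y₀, t₀), |q.2.2.2| < T := by
    have hc : Continuous fun q : ℝ × B × ℝ × ℝ => |q.2.2.2| := by fun_prop
    exact hc.continuousAt.eventually (gt_mem_nhds (by show |t₀| < T; rw [hT]; linarith))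
  have h4 : ∀ᶠ q : ℝ × B × ℝ × ℝ in 𝓝 (s₀, x₀, y₀, t₀),
      |Yo h s₀ x₀ y₀ q.2.2.2 - Yo h s₀ x₀ y₀ t₀| < ε / 2 := by
    have hcy : Continuous (Yo h s₀ x₀ y₀) :=
      continuous_iff_continuousAt.2 fun t => (Yo_der h s₀ x₀ y₀ t).continuousAt
    have hc : Continuous fun q : ℝ × B × ℝ × ℝ =>
        |Yo h s₀ x₀ y₀ q.2.2.2 - Yo h s₀ x₀ y₀ t₀| := by fun_prop
    exact hc.continuousAt.eventually (gt_mem_nhds (by
      show |Yo h s₀ x₀ y₀ t₀ - Yo h s₀ x₀ y₀ t₀| < ε / 2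
      rw [sub_self, abs_zero]; exact half_pos hε))
  filter_upwards [h1, h2, h3, h4] with q a1 a2 a3 a4
  rw [Real.dist_eq]
  have key : |Yo h q.1 q.2.1 q.2.2.1 q.2.2.2 - Yo h s₀ x₀ y₀ q.2.2.2| ≤ ε / 2 / 2 := by
    rcases le_total 0 q.2.2.2 with ht | ht
    · exact a1 _ ⟨ht, ((le_abs_self _).trans_lt a3).le⟩
    · have := a2 (-q.2.2.2) ⟨by linarith, ((neg_le_abs _).trans_lt a3).le⟩
      have e1 := Yo_rev h q.1 q.2.1 q.2.2.1 (-q.2.2.2)
      have e2 := Yo_rev h s₀ x₀ y₀ (-q.2.2.2)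
      rw [neg_neg] at e1 e2
      rw [← e1, ← e2]
      exact this
  have := abs_sub_le (Yo h q.1 q.2.1 q.2.2.1 q.2.2.2) (Yo h s₀ x₀ y₀ q.2.2.2) (Yo h s₀ x₀ y₀ t₀)
  show |Yo h q.1 q.2.1 q.2.2.1 q.2.2.2 - Yo h s₀ x₀ y₀ t₀| < ε
  linarith

end

end Pool.Agent.V5helper25.PB
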