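import Pool.Agent.V5helper25.PB.Dif
import Pool.Agent.V5helper25.PB.Res

/-!
# MP_3a2b62, Q2: the flows of the fields `Y + (g + s) Z`
-/

set_option autoImplicit false
set_option linter.unusedSectionVars false
set_option linter.unusedVariables false

open scoped Topology NNReal
open Filter Set Metric MeasureTheory

universe u v

namespace Pool.Agent.V5helper25.PB

open Pool.Agent.N813.CX Pool.Agent.H728R2.FA

/-- `ψ` is a free action of the circle `ℝ / ℤ`, `φ` a flow which commutes with it, and `g` is a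
continuous function with the continuous derivative `g'` along `ψ`. -/
structure FieldExt (N : Type u) [TopologicalSpace N] (φ ψ : ℝ → N → N) (g g' : N → ℝ) : Prop where
  flow : FlowOn N φ
  act : FlowOn N ψ
  free : ∀ (y : N) (t : ℝ), ψ t y = y ↔ ∃ j : ℤ, t = j
  comm : ∀ s t y, φ s (ψ t y) = ψ t (φ s y)
  gc : Continuous g
  dc : Continuous g'
  der : ∀ y, HasDerivAt (fun u => g (ψ u y)) (g' y) 0

section

variable {N : Type u} [MetricSpace N] [CompactSpace N] {φ ψ : ℝ → N → N} {g g' : N → ℝ}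

theorem FieldExt.fld (h : FieldExt N φ ψ g g') :
    Fld φ (fun z u => g (ψ u z)) (fun z u => g' (ψ u z)) where
  flow := h.flow
  gc := h.gc.comp (h.act.cont.comp (continuous_snd.prodMk continuous_fst))
  dc := h.dc.comp (h.act.cont.comp (continuous_snd.prodMk continuous_fst))
  per := fun x y => by
    rw [h.act.add, (h.free x 1).2 ⟨1, by norm_num⟩]
  der := fun x y => by
    have h1 := h.der (ψ y x)
    rw [← sub_self y] at h1
    have h2 := h1.comp_sub_const y y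
    refine h2.congr_of_eventuallyEq (Eventually.of_forall fun u => ?_)
    show g (ψ u x) = g (ψ (u - y) (ψ y x))
    rw [← h.act.add, sub_add_cancel]

/-- the flow at the parameter `s` -/
noncomputable def Ph (h : FieldExt N φ ψ g g') (s t : ℝ) (y : N) : N :=
  ψ (Yo h.fld s y 0 t) (φ t y)

theorem Yo_shift (h : FieldExt N φ ψ g g') (s : ℝ) (y : N) (v u t : ℝ) :
    Yo h.fld s (ψ v y) u t = Yo h.fld s y (u + v) t - v := by
  have := Yo_eq h.fld (s := s) (x := ψ v y) (y := u) (u := fun r => Yo h.fld s y (u + v) r - v)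
    (by show Yo h.fld s y (u + v) 0 - v = u; rw [Yo_zero, add_sub_cancel_right]) (fun r => by
      have h1 := (Yo_der h.fld s y (u + v) r).sub_const v
      have e : g (ψ (Yo h.fld s y (u + v) r - v) (φ r (ψ v y))) =
          g (ψ (Yo h.fld s y (u + v) r) (φ r y)) := by
        rw [h.comm, ← h.act.add, sub_add_cancel]
      simp only [e]
      exact h1)
  exact congrFun this t

theorem Ph_flow (h : FieldExt N φ ψ g g') (s : ℝ) : FlowOn N (Ph h s) where
  cont := by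
    have h1 : Continuous fun q : ℝ × N => Yo h.fld s q.2 0 q.1 :=
      (Yo_cont h.fld).comp (by fun_prop : Continuous fun q : ℝ × N => (s, q.2, (0 : ℝ), q.1))
    exact h.act.cont.comp (h1.prodMk h.flow.cont)
  zero := fun y => by
    show ψ (Yo h.fld s y 0 0) (φ 0 y) = y
    rw [Yo_zero, h.flow.zero, h.act.zero]
  add := fun a b y => by
    show ψ (Yo h.fld s y 0 (a + b)) (φ (a + b) y) =
      ψ (Yo h.fld s (ψ (Yo h.fld s y 0 b) (φ b y)) 0 a) (φ a (ψ (Yo h.fld s y 0 b) (φ b y)))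
    rw [Yo_shift h, h.comm, ← h.act.add, sub_add_cancel, zero_add, add_comm a b, Yo_add, add_comm b a,
      h.flow.add]

/-- a time map as a homeomorphism -/
def FlowOn.homeo {Φ : ℝ → N → N} (h : FlowOn N Φ) (t : ℝ) : N ≃ₜ N where
  toFun := Φ t
  invFun := Φ (-t)
  left_inv := fun y => by rw [← h.add, neg_add_cancel, h.zero]
  right_inv := fun y => by rw [← h.add, add_neg_cancel, h.zero]
  continuous_toFun := h.cont.comp (continuous_const.prodMk continuous_id)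
  continuous_invFun := h.cont.comp (continuous_const.prodMk continuous_id)

/-- the fibre coordinate -/
noncomputable def Af (h : FieldExt N φ ψ g g') (τ s : ℝ) (y : N) (t : ℝ) : ℝ :=
  Yo h.fld s y t τ - Yo h.fld 0 y 0 τ

theorem Fs_Ph (h : FieldExt N φ ψ g g') (τ s : ℝ) :
    Fs (Ph h 0 τ) ψ (Af h τ) s = Ph h s τ := by
  funext y
  show ψ (Yo h.fld s y 0 τ - Yo h.fld 0 y 0 τ) (ψ (Yo h.fld 0 y 0 τ) (φ τ y)) = _
  rw [← h.act.add, sub_add_cancel]
  rfl

theorem exists_mfam (h : FieldExt N φ ψ g g') {τ : ℝ} (hτ : 0 < τ) :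
    ∃ c L : ℝ, MFam ((Ph_flow h 0).homeo τ) ψ (Af h τ) (fun s y t => De h.fld s y t τ) c L := by
  obtain ⟨K, hK0, hK1, hK2, hK3⟩ := h.fld.bd
  have hK0' : (0 : ℝ) < K := by exact_mod_cast hK0
  refine ⟨τ * Real.exp (-(2 * K * τ)), Real.exp (K * |τ|), ?_⟩
  have hYc : Continuous fun q : ℝ × N × ℝ => Yo h.fld q.1 q.2.1 q.2.2 τ :=
    (Yo_cont h.fld).comp (by fun_prop : Continuous fun q : ℝ × N × ℝ => (q.1, q.2.1, q.2.2, τ))
  have hYc0 : Continuous fun q : ℝ × N × ℝ => Yo h.fld 0 q.2.1 0 τ :=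
    (Yo_cont h.fld).comp (by fun_prop : Continuous fun q : ℝ × N × ℝ => ((0 : ℝ), q.2.1, (0 : ℝ), τ))
  exact
    { cont := h.act.cont
      zero := h.act.zero
      add := h.act.add
      free := h.free
      ext := fun y t => by
        show ψ (Yo h.fld 0 (ψ t y) 0 τ) (φ τ (ψ t y)) =
          ψ (Yo h.fld 0 y t τ - Yo h.fld 0 y 0 τ) (ψ (Yo h.fld 0 y 0 τ) (φ τ y))
        rw [Yo_shift h, h.comm, ← h.act.add, ← h.act.add, sub_add_cancel, sub_add_cancel, zero_add]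
      acont := hYc.sub hYc0
      dcont := De_cont h.fld τ
      der := fun s y t => (Yo_hd h.fld s y t τ).sub_const _
      L1 := Real.one_le_exp (by positivity)
      lo := fun s y t => (De_bd h.fld hK2 s y t τ).1
      hi := fun s y t => (De_bd h.fld hK2 s y t τ).2
      aone := fun s y t => by
        show Yo h.fld s y (t + 1) τ - Yo h.fld 0 y 0 τ = Yo h.fld s y t τ - Yo h.fld 0 y 0 τ + 1
        rw [Yo_one]
        ring
      azero := fun y => sub_self _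
      shift := fun s y u t => by
        show Yo h.fld s (ψ u y) t τ - Yo h.fld 0 (ψ u y) 0 τ =
          Yo h.fld s y (t + u) τ - Yo h.fld 0 y 0 τ - (Yo h.fld 0 y u τ - Yo h.fld 0 y 0 τ)
        rw [Yo_shift h, Yo_shift h, zero_add]
        ring
      cpos := by positivity
      mono := fun s s' y t hs => by
        have := Yo_par h.fld hK2 hs y t hτ.le
        show _ ≤ Yo h.fld s' y t τ - Yo h.fld 0 y 0 τ - (Yo h.fld s y t τ - Yo h.fld 0 y 0 τ)
        linarith }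

end

/-! ## From the time map to the flow -/

section

variable {N : Type u} [MetricSpace N] [CompactSpace N]

theorem nat_bd {τ : ℝ} (hτ : 0 < τ) (t : ℝ) (ht : 0 ≤ t) :
    ∃ (n : ℕ) (r : ℝ), r ∈ Icc 0 τ ∧ t = r + n * τ := by
  refine ⟨⌊t / τ⌋₊, t - ⌊t / τ⌋₊ * τ, ⟨?_, ?_⟩, by ring⟩
  · have := Nat.floor_le (div_nonneg ht hτ.le)
    have := mul_le_mul_of_nonneg_right this hτ.le
    rw [div_mul_cancel₀ _ hτ.ne'] at this
    linarith
  · have := (Nat.lt_floor_add_one (t / τ)).le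
    have := mul_le_mul_of_nonneg_right this hτ.le
    rw [div_mul_cancel₀ _ hτ.ne'] at this
    linarith

theorem iter_flow {Φ : ℝ → N → N} (h : FlowOn N Φ) (τ : ℝ) (n : ℕ) (y : N) :
    (Φ τ)^[n] y = Φ (n * τ) y := by
  induction n with
  | zero => simp [h.zero]
  | succ n ih =>
    rw [Function.iterate_succ_apply', ih, ← h.add]
    congr 1
    push_cast
    ring

/-- the saturation of a set under the flow -/
def sat (Φ : ℝ → N → N) (τ : ℝ) (Λ : Set N) : Set N := {z | ∃ r ∈ Icc 0 τ, ∃ y ∈ Λ, z = Φ r y}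

theorem inv_int {Φ : ℝ → N → N} (h : FlowOn N Φ) {τ : ℝ} {Λ : Set N} (hΛ : Φ τ '' Λ = Λ) (n : ℕ) :
    Φ (n * τ) '' Λ = Λ := by
  induction n with
  | zero =>
    have : (fun y => Φ ((0 : ℕ) * τ) y) = id := by
      funext y
      simp [h.zero]
    show (fun y => Φ ((0 : ℕ) * τ) y) '' Λ = Λ
    rw [this, image_id]
  | succ n ih =>
    have : (fun y => Φ ((n + 1 : ℕ) * τ) y) = Φ τ ∘ Φ (n * τ) := by
      funext y
      show _ = Φ τ (Φ (n * τ) y)
      rw [← h.add]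
      congr 1
      push_cast
      ring
    show (fun y => Φ ((n + 1 : ℕ) * τ) y) '' Λ = Λ
    rw [this, image_comp, ih, hΛ]

theorem sat_fw {Φ : ℝ → N → N} (h : FlowOn N Φ) {τ : ℝ} (hτ : 0 < τ) {Λ : Set N}
    (hΛ : Φ τ '' Λ = Λ) {t : ℝ} (ht : 0 ≤ t) {z : N} (hz : z ∈ sat Φ τ Λ) : Φ t z ∈ sat Φ τ Λ := by
  obtain ⟨r, hr, y, hy, rfl⟩ := hz
  obtain ⟨n, r', hr', e⟩ := nat_bd hτ (t + r) (add_nonneg ht hr.1)
  refine ⟨r', hr', Φ (n * τ) y, ?_, ?_⟩
  · rw [← inv_int h hΛ n]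
    exact ⟨y, hy, rfl⟩
  · rw [← h.add, ← h.add, e]

theorem sat_bw {Φ : ℝ → N → N} (h : FlowOn N Φ) {τ : ℝ} (hτ : 0 < τ) {Λ : Set N}
    (hΛ : Φ τ '' Λ = Λ) {t : ℝ} (ht : 0 ≤ t) {z : N} (hz : z ∈ sat Φ τ Λ) : Φ (-t) z ∈ sat Φ τ Λ := by
  obtain ⟨r, hr, y, hy, rfl⟩ := hz
  obtain ⟨n, hn⟩ := exists_nat_gt (t / τ)
  have hn' : t < n * τ := by rwa [div_lt_iff₀ hτ] at hn
  have hy' : y ∈ Φ (n * τ) '' Λ := by rw [inv_int h hΛ n]; exact hy
  obtain ⟨w, hw, rfl⟩ := hy'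
  have e : Φ (-t) (Φ r (Φ (n * τ) w)) = Φ (r + n * τ - t) w := by
    rw [← h.add, ← h.add]
    congr 1
    ring
  rw [e]
  obtain ⟨n', r', hr', e'⟩ := nat_bd hτ (r + n * τ - t) (by linarith [hr.1])
  refine ⟨r', hr', Φ (n' * τ) w, ?_, ?_⟩
  · rw [← inv_int h hΛ n']
    exact ⟨w, hw, rfl⟩
  · rw [← h.add, e']

theorem sat_inv {Φ : ℝ → N → N} (h : FlowOn N Φ) {τ : ℝ} (hτ : 0 < τ) {Λ : Set N}
    (hΛ : Φ τ '' Λ = Λ) (t : ℝ) : Φ t '' sat Φ τ Λ = sat Φ τ Λ := by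
  have key : ∀ t : ℝ, ∀ z ∈ sat Φ τ Λ, Φ t z ∈ sat Φ τ Λ := by
    intro t z hz
    rcases le_total 0 t with ht | ht
    · exact sat_fw h hτ hΛ ht hz
    · have := sat_bw h hτ hΛ (neg_nonneg.2 ht) hz
      rwa [neg_neg] at this
  refine Subset.antisymm (image_subset_iff.2 fun z hz => key t z hz) fun z hz => ?_
  refine ⟨Φ (-t) z, key (-t) z hz, ?_⟩
  rw [← h.add, add_neg_cancel, h.zero]

/-- the `ω`-limit set of the flow is the saturation of the one of the time map -/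
theorem omega_sat {Φ : ℝ → N → N} (h : FlowOn N Φ) {τ : ℝ} (hτ : 0 < τ) (p : N) :
    omegaF Φ p ⊆ sat Φ τ (omegaLim (Φ τ) p) := by
  intro q hq
  -- choose times
  have h1 : ∀ k : ℕ, ∃ t : ℝ, (k : ℝ) * τ ≤ t ∧ dist (Φ t p) q < 1 / ((k : ℝ) + 1) := fun k => by
    obtain ⟨t, ht1, ht2⟩ := hq (ball q (1 / ((k : ℝ) + 1))) (ball_mem_nhds _ (by positivity)) (k * τ)
    exact ⟨t, ht1, ht2⟩
  choose t ht1 ht2 using h1
  have ht0 : ∀ k, 0 ≤ t k := fun k => (by positivity : (0 : ℝ) ≤ k * τ).trans (ht1 k)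
  choose n r hr e using fun k => nat_bd hτ (t k) (ht0 k)
  -- compactness
  obtain ⟨⟨r₀, z⟩, hz, κ, hκ, hlim⟩ := (isCompact_Icc.prod (isCompact_univ (X := N))).tendsto_subseq
    (x := fun k => (r k, Φ (n k * τ) p)) fun k => ⟨hr k, mem_univ _⟩
  have hl1 : Tendsto (fun k => r (κ k)) atTop (𝓝 r₀) := (continuous_fst.tendsto _).comp hlim
  have hl2 : Tendsto (fun k => Φ (n (κ k) * τ) p) atTop (𝓝 z) := (continuous_snd.tendsto _).comp hlim
  refine ⟨r₀, hz.1, z, ?_, ?_⟩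
  · intro U hU M
    have h3 := hl2.eventually hU
    have h4 : ∀ᶠ k in atTop, M + 1 ≤ κ k := hκ.tendsto_atTop.eventually (eventually_ge_atTop _)
    obtain ⟨k, hk1, hk2⟩ := (h3.and h4).exists
    refine ⟨n (κ k), ?_, ?_⟩
    · have h5 := ht1 (κ k)
      rw [e (κ k)] at h5
      have h6 := (hr (κ k)).2
      have h7 : ((κ k : ℝ)) * τ ≤ (1 + n (κ k)) * τ := by linarith
      have h8 : (κ k : ℝ) ≤ 1 + n (κ k) := le_of_mul_le_mul_right h7 hτ
      have h9 : κ k ≤ 1 + n (κ k) := by exact_mod_cast h8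
      omega
    · rw [iter_flow h]
      exact hk1
  · have h3 : Tendsto (fun k => Φ (t (κ k)) p) atTop (𝓝 (Φ r₀ z)) := by
      have h4 : Tendsto (fun k => Φ (r (κ k)) (Φ (n (κ k) * τ) p)) atTop (𝓝 (Φ r₀ z)) :=
        (h.cont.tendsto (r₀, z)).comp (hl1.prodMk_nhds hl2)
      refine h4.congr fun k => ?_
      rw [← h.add, ← e (κ k)]
    have h5 : Tendsto (fun k => Φ (t (κ k)) p) atTop (𝓝 q) := by
      rw [tendsto_iff_dist_tendsto_zero]
      refine squeeze_zero (fun _ => dist_nonneg) (fun k => (ht2 (κ k)).le) ?_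
      exact tendsto_one_div_add_atTop_nhds_zero_nat.comp hκ.tendsto_atTop
    exact tendsto_nhds_unique h5 h3

theorem flow_of_time [MeasurableSpace N] {μ : Measure N} {Φ : ℝ → N → N} (h : FlowOn N Φ) {τ : ℝ}
    (hτ : 0 < τ) (hf : FiniteAttractors μ (Φ τ)) : FiniteAttractorsF μ Φ := by
  obtain ⟨k, Λ, h1, h2⟩ := hf
  have key : ∀ i p, omegaLim (Φ τ) p ⊆ Λ i → omegaF Φ p ⊆ sat Φ τ (Λ i) := by
    intro i p hp q hq
    obtain ⟨r, hr, y, hy, e⟩ := omega_sat h hτ p hq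
    exact ⟨r, hr, y, hp hy, e⟩
  refine ⟨k, fun i => sat Φ τ (Λ i), fun i => ⟨sat_inv h hτ (h1 i).1, ?_, ?_⟩, ?_⟩
  · obtain ⟨x, hx, hx2⟩ := (h1 i).2.1
    refine ⟨x, ⟨0, ⟨le_refl _, hτ.le⟩, x, hx, (h.zero x).symm⟩, ?_⟩
    rintro _ ⟨r, hr, y, hy, rfl⟩
    have h3 : Φ r y ∈ closure (Φ r '' range fun n : ℕ => (Φ τ)^[n] x) :=
      image_closure_subset_closure_image (h.cont.comp (continuous_const.prodMk continuous_id))
        ⟨y, hx2 hy, rfl⟩
    refine closure_mono ?_ h3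
    rintro _ ⟨_, ⟨n, rfl⟩, rfl⟩
    refine ⟨r + n * τ, add_nonneg hr.1 (by positivity), ?_⟩
    show Φ r ((Φ τ)^[n] x) = _
    rw [iter_flow h, ← h.add]
  · exact (h1 i).2.2.trans_le (measure_mono fun p hp => key i p hp)
  · refine measure_mono_null (fun p hp i hi => hp i (key i p hi)) h2

end

end Pool.Agent.V5helper25.PB
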