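import Mathlib

/-!
# Uniqueness of Fourier coefficients of bounded measurable periodic functions
-/

set_option autoImplicit false
set_option linter.unusedSectionVars false
set_option linter.unusedVariables false

open scoped Topology ENNReal Real
open MeasureTheory Filter Set

namespace Pool.Agent.V5helper25.PB

/-- the character of frequency `l` -/
noncomputable def ch (l t : ℝ) : ℂ := Complex.exp (((l * t : ℝ) : ℂ) * Complex.I)

theorem ch_add (l s t : ℝ) : ch l (s + t) = ch l s * ch l t := by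
  rw [ch, ch, ch, ← Complex.exp_add]
  congr 1
  push_cast
  ring

theorem ch_zero (l : ℝ) : ch l 0 = 1 := by simp [ch]

theorem ch_norm (l t : ℝ) : ‖ch l t‖ = 1 := Complex.norm_exp_ofReal_mul_I _

theorem ch_cont (l : ℝ) : Continuous (ch l) := by
  unfold ch
  fun_prop

theorem ch_per {τ : ℝ} (hτ : τ ≠ 0) (k : ℤ) : ch (2 * π * k / τ) τ = 1 := by
  have : ((2 * π * k / τ * τ : ℝ) : ℂ) * Complex.I = (k : ℂ) * (2 * π * Complex.I) := by
    rw [div_mul_cancel₀ _ hτ]
    push_cast
    ring
  rw [ch, this, Complex.exp_int_mul_two_pi_mul_I]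

/-- **Uniqueness.** -/
theorem fou_unique {τ : ℝ} (hτ : 0 < τ) {h : ℝ → ℂ} (hm : Measurable h) (hb : ∀ t, ‖h t‖ ≤ 1)
    (h0 : ∀ k : ℤ, k ≠ 0 → ∫ t in (0 : ℝ)..τ, ch (-(2 * π * k / τ)) t * h t = 0) :
    ∃ c : ℂ, ∀ᵐ t ∂(volume.restrict (Ioc 0 τ)), h t = c := by
  have : Fact (0 < τ) := ⟨hτ⟩
  set H : AddCircle τ → ℂ := fun z => h (AddCircle.equivIoc τ 0 z : ℝ) with hH
  have hHm : Measurable H := hm.comp (measurable_subtype_coe.comp
    (AddCircle.measurableEquivIoc τ 0).measurable)
  have hHc : ∀ t ∈ Ioc 0 τ, H (t : AddCircle τ) = h t := by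
    intro t ht
    show h (AddCircle.equivIoc τ 0 (t : AddCircle τ) : ℝ) = h t
    rw [AddCircle.equivIoc_coe_eq (show t ∈ Ioc 0 (0 + τ) by rwa [zero_add])]
  have hL : MemLp H 2 (AddCircle.haarAddCircle (T := τ)) :=
    MemLp.of_bound hHm.aestronglyMeasurable 1 (Eventually.of_forall fun z => hb _)
  set f := hL.toLp H with hf
  have hfH : f =ᵐ[AddCircle.haarAddCircle (T := τ)] H := hL.coeFn_toLp
  have hc : ∀ k : ℤ, k ≠ 0 → fourierCoeff f k = 0 := by
    intro k hk
    have e1 : fourierCoeff f k = fourierCoeff H k := by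
      refine integral_congr_ae ?_
      filter_upwards [hfH] with z hz
      rw [hz]
    rw [e1, fourierCoeff_eq_intervalIntegral H k 0, zero_add]
    have e2 : ∫ x in (0 : ℝ)..τ, @fourier τ (-k) x • H x =
        ∫ t in (0 : ℝ)..τ, ch (-(2 * π * k / τ)) t * h t := by
      rw [intervalIntegral.integral_of_le hτ.le, intervalIntegral.integral_of_le hτ.le]
      refine setIntegral_congr_fun measurableSet_Ioc fun t ht => ?_
      show @fourier τ (-k) t • H t = _
      rw [hHc t ht, fourier_coe_apply, smul_eq_mul, ch]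
      congr 2
      push_cast
      ring
    rw [e2, h0 k hk, smul_zero]
  have hs := hasSum_fourier_series_L2 f
  have hs0 : HasSum (fun i => fourierCoeff f i • fourierLp (T := τ) 2 i)
      (fourierCoeff f 0 • fourierLp 2 0) :=
    hasSum_single 0 fun k hk => by rw [hc k hk, zero_smul]
  have e := hs.unique hs0
  have e1 : H =ᵐ[AddCircle.haarAddCircle (T := τ)] fun _ => fourierCoeff f 0 := by
    have h1 : (f : AddCircle τ → ℂ) =ᵐ[AddCircle.haarAddCircle (T := τ)]
        (fourierCoeff f 0 • fourierLp 2 0 : Lp ℂ 2 (AddCircle.haarAddCircle (T := τ))) := by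
      exact (congrArg (fun u : Lp ℂ 2 (AddCircle.haarAddCircle (T := τ)) => (u : AddCircle τ → ℂ)) e).eventuallyEq
    have h2 := Lp.coeFn_smul (fourierCoeff f 0) (fourierLp (T := τ) 2 0)
    filter_upwards [hfH, h1, h2, coeFn_fourierLp (T := τ) 2 0] with z a1 a2 a3 a4
    rw [← a1, a2, a3, Pi.smul_apply, a4, fourier_zero, smul_eq_mul, mul_one]
  refine ⟨fourierCoeff f 0, ?_⟩
  have e2 : H =ᵐ[(volume : Measure (AddCircle τ))] fun _ => fourierCoeff f 0 := by
    rw [AddCircle.volume_eq_smul_haarAddCircle]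
    exact (Measure.smul_absolutelyContinuous).ae_le e1
  have mp := AddCircle.measurePreserving_mk τ 0
  rw [zero_add] at mp
  have e3 := mp.quasiMeasurePreserving.ae e2
  filter_upwards [e3, ae_restrict_mem measurableSet_Ioc] with t ht ht2
  rw [← hHc t ht2]
  exact ht

end Pool.Agent.V5helper25.PB
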