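import Pool.Agent.V5helper25.PB.MF

/-!
# MP_3a2b62: monotone families of circle extensions, locked parameters
-/

set_option autoImplicit false
set_option linter.unusedSectionVars false
set_option linter.unusedVariables false

open scoped Topology ENNReal
open MeasureTheory Filter Set Metric

universe u v

namespace Pool.Agent.V5helper25.PB

open Pool.Agent.TH80.OMS Pool.Agent.N813.CX Pool.Agent.N813.CX.CLOS Pool.Agent.V5helper25.TK
  Pool.Agent.V5helper25.TG Pool.Agent.V5helper25.EX Pool.Agent.V5helper25.PA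
  Pool.Agent.H728R2.FA Pool.Agent.TH525.PF Pool.Agent.TH525.PF.Sys

section

variable {N : Type u} [MetricSpace N] [CompactSpace N] {F : N ≃ₜ N} {ψ : ℝ → N → N}
  {A A' : ℝ → N → ℝ → ℝ} {c L : ℝ}

theorem dper (h : MFam F ψ A A' c L) (s : ℝ) (y : N) (t : ℝ) (j : ℤ) :
    A' s y (t + j) = A' s y t := by
  have e1 : HasDerivAt (fun u => A s y (u + j)) (A' s y (t + j)) t :=
    (h.der s y (t + j)).comp_add_const t j
  have e2 : HasDerivAt (fun u => A s y (u + j)) (A' s y t) t := by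
    have : (fun u => A s y (u + j)) = fun u => A s y u + j := funext fun u => a_int'' h s y u j
    rw [this]
    exact (h.der s y t).add_const _
  exact e1.unique e2

theorem dmod (h : MFam F ψ A A' c L) (s : ℝ) {ε : ℝ} (hε : 0 < ε) : ∃ ρ : ℝ, 0 < ρ ∧
    ∀ y t t', |t - t'| < ρ → |Real.log (A' s y t) - Real.log (A' s y t')| ≤ ε := by
  have hK : IsCompact ((univ : Set N) ×ˢ Icc (-1 : ℝ) 2) := isCompact_univ.prod isCompact_Icc
  have hlog : ContinuousOn (fun p : N × ℝ => Real.log (A' s p.1 p.2))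
      ((univ : Set N) ×ˢ Icc (-1 : ℝ) 2) :=
    ((h.dcont.comp (continuous_const.prodMk continuous_id)).log
      fun p => (apos h s p.1 p.2).ne').continuousOn
  have huc := hK.uniformContinuousOn_of_continuous hlog
  rw [Metric.uniformContinuousOn_iff] at huc
  obtain ⟨δ, hδ, hδ2⟩ := huc ε hε
  refine ⟨min δ 1, lt_min hδ one_pos, fun x y y' hyy => ?_⟩
  have f1 := Int.floor_le y
  have f2 := Int.lt_floor_add_one y
  have f3 := abs_lt.1 (hyy.trans_le (min_le_right _ _))
  have h1 := hδ2 (x, y - ⌊y⌋) ⟨mem_univ _, by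
    constructor <;> linarith⟩ (x, y' - ⌊y⌋) ⟨mem_univ _, by
    constructor <;> linarith [f3.1, f3.2]⟩ (by
      rw [Prod.dist_eq, dist_self, max_eq_right dist_nonneg, Real.dist_eq]
      rw [show y - ↑⌊y⌋ - (y' - ↑⌊y⌋) = y - y' by ring]
      exact hyy.trans_le (min_le_left _ _))
  rw [Real.dist_eq] at h1
  have h2 := dper h s x (y - ⌊y⌋) ⌊y⌋
  have h3 := dper h s x (y' - ⌊y⌋) ⌊y⌋
  rw [sub_add_cancel] at h2 h3
  rw [h2, h3]
  exact h1.le

variable [MeasurableSpace N] [BorelSpace N]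

/-- the family of the systems over `N` -/
noncomputable def famN (h : MFam F ψ A A' c L) : Fam N where
  T := F.toMeasurableEquiv
  F := A
  G := A'
  L := L
  c := c
  mF := fun s => (h.acont.comp (continuous_const.prodMk continuous_id)).measurable
  mG := fun s => (h.dcont.comp (continuous_const.prodMk continuous_id)).measurable
  der := h.der
  L1 := h.L1
  lo := h.lo
  hi := h.hi
  mod := fun s ε hε => dmod h s hε
  cpos := h.cpos
  mono := h.mono
  contF := fun y => h.acont.comp (continuous_fst.prodMk (continuous_const.prodMk continuous_snd))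
  contG := fun y => h.dcont.comp (continuous_fst.prodMk (continuous_const.prodMk continuous_snd))

theorem famN_T (h : MFam F ψ A A' c L) (y : N) : (famN h).T y = F y := rfl

/-- the orbits of the systems -/
theorem it_co (h : MFam F ψ A A' c L) (s : ℝ) (n : ℕ) (y : N) (t : ℝ) :
    ((famN h).sy s).it n y t = co F A s n y t := by
  induction n with
  | zero => rfl
  | succ n ih =>
    rw [it_succ, ih]
    rfl

variable {B : Type v} [MetricSpace B] [MeasurableSpace B] [BorelSpace B] {π : N → B} {f : B → B}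
  {μ : Measure N} [IsFiniteMeasure μ] {m : Measure B} [IsProbabilityMeasure m]

/-- locked parameters to the right of `0` -/
theorem lock0 (h : MFam F ψ A A' c L) (ho : OrbitMap F ψ π f) (erg : Ergodic f m)
    (hq : ∀ t, μ.map (ψ t) ≪ μ) (h1 : μ.map π ≪ m) (h2 : m ≪ μ.map π) {b : ℝ}
    (hG : ∀ n, m (π '' Ga F A 0 b n) = 0) :
    ∃ Z : Set ℝ, IsClosed Z ∧ volume Z = 0 ∧
      ∀ s, 0 ≤ s → s ≤ b → s ∉ Z → FiniteAttractors μ (Fs F ψ A s) := by
  have hCB : CompactSpace B := ⟨by rw [← ho.surj.range_eq]; exact isCompact_range ho.cont⟩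
  obtain ⟨μ₀, hμ₀, hμ₀'⟩ := exists_lift (μ := μ) ho.cont h2
  obtain ⟨ν, hν1, hν2, hν3⟩ := exists_erg_lift F.continuous ho.cont ho.semi erg hμ₀'
  set S := famN h with hS
  have hTT : (S.T : N → N) = F := rfl
  have ergS : Ergodic S.T ν := by rw [hTT]; exact hν2
  refine ⟨S.Neu ν, S.neu_closed ergS h.aone h.azero, S.sard ergS, fun s hs0 hs1 hs => ?_⟩
  -- the system is locked
  have hν4 : ∀ᵐ y ∂ν, ∀ n, y ∉ Ga F A 0 b n := by
    rw [ae_all_iff]
    intro n
    have h3 : ∀ᵐ x ∂m, x ∉ π '' Ga F A 0 b n := measure_eq_zero_iff_ae_notMem.1 (hG n)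
    have hQ : Measure.QuasiMeasurePreserving π ν m :=
      ⟨ho.cont.measurable, hν3 ▸ Measure.AbsolutelyContinuous.rfl⟩
    filter_upwards [hQ.ae h3] with y hy hc
    exact hy ⟨y, hc, rfl⟩
  have hco0 : ∀ n y, co F A 0 n y 0 = 0 := by
    intro n y
    induction n with
    | zero => rfl
    | succ n ih =>
      show A 0 _ (co F A 0 n y 0) = 0
      rw [ih, h.azero]
  have hbd : ∀ᵐ y ∂ν, ∀ n, (S.sy b).it n y 0 ≤ 2 := by
    filter_upwards [hν4] with y hy n
    have h3 := Ga_not h (hy n) 0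
    rw [hco0] at h3
    rw [hS, it_co]
    linarith
  obtain ⟨α, hα⟩ := S.exists_gr ergS h.azero hs0 hs1 hbd
  have htop := top h
  refine fa_general (ν := ν) (S.sy s) ergS (fsH h s) (fun y t => ψ t y) ?_ ?_ ?_ ?_ ?_ ?_ hα μ
    ?_ ?_
  · exact (h.cont.comp continuous_swap).measurable
  · intro y t
    rw [fsH_apply, Fs_ext h]
    rfl
  · intro y t k
    have : ψ ((t : ℝ) + k) y = ψ t (ψ (k : ℝ) y) := h.add _ _ _
    show ψ (t + k) y = ψ t y
    rw [this, (h.free y k).2 ⟨k, rfl⟩]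
  · intro ε hε
    obtain ⟨δ, hδ, h3⟩ := psi_small htop hε
    refine ⟨δ, hδ, fun y t t' htt => ?_⟩
    have h4 := h3 (ψ t' y) (t - t') htt
    rwa [← h.add, sub_add_cancel] at h4
  · exact fun x y => h.aone s x y
  · intro φ hφ h0
    exact hs ⟨φ, hφ, h0⟩
  · intro P hP hz
    exact U1 htop ho hq (by rw [hν3]; exact h1) hP hz
  · intro Q hQ
    exact U2 htop ho hq (by rw [hν3]; exact h2) hQ

theorem orbF (h : MFam F ψ A A' c L) (ho : OrbitMap F ψ π f) (s : ℝ) :
    OrbitMap (Fs F ψ A s) ψ π f :=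
  ⟨ho.cont, ho.surj, ho.eq, fun x => by
    show π (ψ _ (F x)) = f (π x)
    rw [pi_psi ho, ho.semi]⟩

/-- the orbits with respect to another base parameter -/
theorem co_rec (h : MFam F ψ A A' c L) (s₀ σ : ℝ) (n : ℕ) (y : N) (t : ℝ) :
    co (fsH h s₀) (fun σ y t => A (s₀ + σ) y t - A s₀ y 0) σ n y t =
      co F A (s₀ + σ) n y t - co F A s₀ n y 0 := by
  induction n with
  | zero => show t = t - 0; ring
  | succ n ih =>
    have e : (fsH h s₀)^[n] y = ψ (co F A s₀ n y 0) (F^[n] y) := co_iter0 h s₀ n y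
    show A (s₀ + σ) ((fsH h s₀)^[n] y) (co (fsH h s₀) _ σ n y t) -
      A s₀ ((fsH h s₀)^[n] y) 0 = A (s₀ + σ) (F^[n] y) _ - A s₀ (F^[n] y) _
    rw [ih, e, h.shift, h.shift, sub_add_cancel, zero_add]
    ring

/-- **Locked parameters.** -/
theorem lockM (h : MFam F ψ A A' c L) (ho : OrbitMap F ψ π f) (erg : Ergodic f m)
    (hq : ∀ t, μ.map (ψ t) ≪ μ) (h1 : μ.map π ≪ m) (h2 : m ≪ μ.map π) {s₀ s₁ : ℝ}
    (hG : ∀ n, m (π '' Ga F A s₀ s₁ n) = 0) :
    ∃ Z : Set ℝ, IsClosed Z ∧ volume Z = 0 ∧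
      ∀ s, s₀ ≤ s → s ≤ s₁ → s ∉ Z → FiniteAttractors μ (Fs F ψ A s) := by
  have hr := recenter h s₀
  have hor : OrbitMap (fsH h s₀) ψ π f := orbF h ho s₀
  have hGr : ∀ n, m (π '' Ga (fsH h s₀) (fun σ y t => A (s₀ + σ) y t - A s₀ y 0) 0
      (s₁ - s₀) n) = 0 := by
    intro n
    refine measure_mono_null (image_mono ?_) (hG n)
    intro y hy t
    have := hy t
    rw [co_rec h, co_rec h, add_zero, add_sub_cancel] at this
    linarith
  obtain ⟨Z, hZ1, hZ2, hZ3⟩ := lock0 hr hor erg hq h1 h2 hGr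
  refine ⟨(fun s => s - s₀) ⁻¹' Z, hZ1.preimage (continuous_id.sub continuous_const), ?_, ?_⟩
  · rw [(measurePreserving_sub_right volume s₀).measure_preimage hZ1.measurableSet.nullMeasurableSet]
    exact hZ2
  · intro s hs0 hs1 hs
    have h3 := hZ3 (s - s₀) (by linarith) (by linarith) hs
    have e : Fs (fsH h s₀) ψ (fun σ y t => A (s₀ + σ) y t - A s₀ y 0) (s - s₀) = Fs F ψ A s := by
      funext y
      show ψ (A (s₀ + (s - s₀)) y 0 - A s₀ y 0) (ψ (A s₀ y 0) (F y)) = ψ (A s y 0) (F y)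
      rw [← h.add, add_sub_cancel, sub_add_cancel]
    rwa [e] at h3

end

end Pool.Agent.V5helper25.PB
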