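import Pool.Agent.V5helper25.PB.Fam
import Pool.Agent.TH525.PF.Wav

/-!
# MP_3a2b62: graphs of a monotone family at locked parameters
-/

set_option autoImplicit false

open Set Filter Topology MeasureTheory

namespace Pool.Agent.V5helper25.PB

open Pool.Agent.TH525.PF Pool.Agent.TH525.PF.Sys

variable {X : Type*} [MeasurableSpace X] {m : Measure X}

namespace Fam

variable (S : Fam X)

theorem it_le {σ σ' : ℝ} (h : σ ≤ σ') (n : ℕ) (x : X) (y : ℝ) :
    (S.sy σ).it n x y ≤ (S.sy σ').it n x y := by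
  induction n with
  | zero => exact le_rfl
  | succ n ih =>
    rw [it_succ, it_succ]
    exact (((S.sy σ).strict _).monotone ih).trans (S.le h _ _)

theorem wn_mono (h0 : ∀ x, S.F 0 x 0 = 0) {σ : ℝ} (hσ : 0 ≤ σ) (x : X) :
    Monotone fun n => (S.sy σ).it n (S.T.symm^[n] x) 0 := by
  refine monotone_nat_of_le_succ fun n => ?_
  rw [it_succ', Function.iterate_succ_apply']
  have h1 : (S.sy σ).T (S.T.symm (S.T.symm^[n] x)) = S.T.symm^[n] x := S.T.apply_symm_apply _
  rw [h1]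
  refine (S.sy σ).it_mono n _ ?_
  have := S.le hσ (S.T.symm (S.T.symm^[n] x)) 0
  rw [h0] at this
  exact this

/-- **Graphs at locked parameters.** -/
theorem exists_gr [IsProbabilityMeasure m] (erg : Ergodic S.T m) (h0 : ∀ x, S.F 0 x 0 = 0)
    {σ b D : ℝ} (hσ : 0 ≤ σ) (hσb : σ ≤ b) (hbd : ∀ᵐ x ∂m, ∀ n, (S.sy b).it n x 0 ≤ D) :
    ∃ α : X → ℝ, (S.sy σ).Gr m α := by
  have hsymm : MeasurePreserving S.T.symm m m := erg.toMeasurePreserving.symm S.T
  have hb2 : ∀ᵐ x ∂m, ∀ n, (S.sy σ).it n (S.T.symm^[n] x) 0 ≤ D := by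
    rw [ae_all_iff]
    intro n
    filter_upwards [(hsymm.iterate n).quasiMeasurePreserving.ae hbd] with x hx
    exact (S.it_le hσb n _ _).trans (hx n)
  have hlim : ∀ x, (∀ n, (S.sy σ).it n (S.T.symm^[n] x) 0 ≤ D) →
      Tendsto (fun n => (S.sy σ).it n (S.T.symm^[n] x) 0) atTop
        (𝓝 (⨆ n, (S.sy σ).it n (S.T.symm^[n] x) 0)) := by
    intro x hx
    refine tendsto_atTop_ciSup (S.wn_mono h0 hσ x) ⟨D, ?_⟩
    rintro _ ⟨n, rfl⟩
    exact hx n
  refine ⟨fun x => ⨆ n, (S.sy σ).it n (S.T.symm^[n] x) 0, ?_, ?_⟩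
  · refine Measurable.iSup fun n => ?_
    exact ((S.sy σ).it_meas n (measurable_const (a := (0 : ℝ)))).comp (S.T.symm.measurable.iterate n)
  · filter_upwards [hb2, erg.toMeasurePreserving.quasiMeasurePreserving.ae hb2] with x h1 h2
    have l1 := (hlim (S.T x) h2).comp (tendsto_add_atTop_nat 1)
    have l2 := (((S.sy σ).cont x).tendsto _).comp (hlim x h1)
    refine tendsto_nhds_unique l2 (l1.congr fun n => ?_)
    show (S.sy σ).it (n + 1) (S.T.symm^[n + 1] (S.T x)) 0 = (S.sy σ).F x _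
    rw [Function.iterate_succ_apply, S.T.symm_apply_apply, it_succ]
    have h3 : (S.sy σ).T^[n] (S.T.symm^[n] x) = x :=
      (Function.LeftInverse.iterate (fun z => S.T.apply_symm_apply z) n) x
    rw [h3]

end Fam

end Pool.Agent.V5helper25.PB
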