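import Pool.Agent.V5helper25.PB.Clo
import Pool.Agent.V5helper25.PB.Wav
import Pool.Agent.V5helper25.PA.Tr
import Pool.Agent.V5helper25.PA.Gen
import Pool.Agent.V5helper25.PA.Res

/-!
# MP_3a2b62: monotone families of circle extensions
-/

set_option autoImplicit false
set_option linter.unusedSectionVars false

open scoped Topology
open MeasureTheory Filter Set Metric

universe u v

namespace Pool.Agent.V5helper25.PB

open Pool.Agent.TH80.OMS Pool.Agent.N813.CX Pool.Agent.N813.CX.CLOS Pool.Agent.V5helper25.TK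
  Pool.Agent.V5helper25.TG Pool.Agent.V5helper25.EX Pool.Agent.V5helper25.PA
  Pool.Agent.TH525.PF Pool.Agent.TH525.PF.Sys

/-- A family of circle extensions `F_s (ψ_t y) = ψ_(A s y t) (F y)` of the same map, increasing in the
parameter `s`; `F_0 = F`. -/
structure MFam {N : Type u} [TopologicalSpace N] (F : N → N) (ψ : ℝ → N → N)
    (A A' : ℝ → N → ℝ → ℝ) (c L : ℝ) : Prop where
  cont : Continuous fun q : ℝ × N => ψ q.1 q.2
  zero : ∀ y, ψ 0 y = y
  add : ∀ s t y, ψ (s + t) y = ψ s (ψ t y)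
  free : ∀ (y : N) (t : ℝ), ψ t y = y ↔ ∃ j : ℤ, t = j
  ext : ∀ y t, F (ψ t y) = ψ (A 0 y t) (F y)
  acont : Continuous fun q : ℝ × N × ℝ => A q.1 q.2.1 q.2.2
  dcont : Continuous fun q : ℝ × N × ℝ => A' q.1 q.2.1 q.2.2
  der : ∀ s y t, HasDerivAt (A s y) (A' s y t) t
  L1 : 1 ≤ L
  lo : ∀ s y t, L⁻¹ ≤ A' s y t
  hi : ∀ s y t, A' s y t ≤ L
  aone : ∀ s y t, A s y (t + 1) = A s y t + 1
  azero : ∀ y, A 0 y 0 = 0
  shift : ∀ s y u t, A s (ψ u y) t = A s y (t + u) - A 0 y u
  cpos : 0 < c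
  mono : ∀ s s' y t, s ≤ s' → c * (s' - s) ≤ A s' y t - A s y t

/-- the map at the parameter `s` -/
def Fs {N : Type u} (F : N → N) (ψ : ℝ → N → N) (A : ℝ → N → ℝ → ℝ) (s : ℝ) : N → N :=
  fun y => ψ (A s y 0) (F y)

/-- the position of `F_s^n (ψ_t y)` with respect to `F^n y` -/
def co {N : Type u} (F : N → N) (A : ℝ → N → ℝ → ℝ) (s : ℝ) : ℕ → N → ℝ → ℝ
  | 0, _, t => t
  | n + 1, y, t => A s (F^[n] y) (co F A s n y t)

section

variable {N : Type u} [MetricSpace N] [CompactSpace N] {F : N ≃ₜ N} {ψ : ℝ → N → N}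
  {A A' : ℝ → N → ℝ → ℝ} {c L : ℝ}

theorem apos (h : MFam F ψ A A' c L) (s : ℝ) (y : N) (t : ℝ) : 0 < A' s y t :=
  (inv_pos.2 (lt_of_lt_of_le one_pos h.L1)).trans_le (h.lo s y t)

theorem amono (h : MFam F ψ A A' c L) (s : ℝ) (y : N) : StrictMono (A s y) := by
  refine strictMono_of_deriv_pos fun t => ?_
  rw [(h.der s y t).deriv]
  exact apos h s y t

theorem alt (h : MFam F ψ A A' c L) {s s' : ℝ} (hs : s < s') (y : N) (t : ℝ) :
    A s y t < A s' y t := by
  have h1 := h.mono s s' y t hs.le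
  have h2 := mul_pos h.cpos (sub_pos.2 hs)
  linarith

theorem ale (h : MFam F ψ A A' c L) {s s' : ℝ} (hs : s ≤ s') (y : N) (t : ℝ) :
    A s y t ≤ A s' y t := by
  have h1 := h.mono s s' y t hs
  have h2 := mul_nonneg h.cpos.le (sub_nonneg.2 hs)
  linarith

theorem acy (h : MFam F ψ A A' c L) (s : ℝ) (y : N) : Continuous (A s y) :=
  h.acont.comp (continuous_const.prodMk (continuous_const.prodMk continuous_id))

theorem top (h : MFam F ψ A A' c L) : TopExt F ψ (A 0) :=
  ⟨h.cont, h.zero, h.add, h.free, h.ext, fun y => acy h 0 y, fun y => amono h 0 y,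
    fun y t => h.aone 0 y t, h.azero⟩

theorem Fs_ext (h : MFam F ψ A A' c L) (s t : ℝ) (y : N) :
    Fs F ψ A s (ψ t y) = ψ (A s y t) (F y) := by
  show ψ (A s (ψ t y) 0) (F (ψ t y)) = _
  rw [h.shift, h.ext, ← h.add, zero_add, sub_add_cancel]

theorem Fs_zero (h : MFam F ψ A A' c L) : Fs F ψ A 0 = F := by
  funext y
  show ψ (A 0 y 0) (F y) = F y
  rw [h.azero, h.zero]

theorem Fs_cont (h : MFam F ψ A A' c L) (s : ℝ) : Continuous (Fs F ψ A s) :=
  h.cont.comp ((h.acont.comp (continuous_const.prodMk (continuous_id.prodMk continuous_const))).prodMk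
    F.continuous)

theorem a_int'' (h : MFam F ψ A A' c L) (s : ℝ) (y : N) (t : ℝ) (j : ℤ) :
    A s y (t + j) = A s y t + j := by
  have h2 : Function.Periodic (fun u => A s y u - u) 1 := fun u => by
    show A s y (u + 1) - (u + 1) = A s y u - u
    rw [h.aone]
    ring
  have h3 := h2.int_mul j t
  simp only [mul_one] at h3
  linarith

theorem asurj (h : MFam F ψ A A' c L) (s : ℝ) (y : N) : Function.Surjective (A s y) := by
  intro z
  have e : ∀ j : ℤ, A s y j = A s y 0 + j := fun j => by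
    have := a_int'' h s y 0 j
    rwa [zero_add] at this
  refine mem_range_of_exists_le_of_exists_ge (acy h s y) ⟨⌊z - A s y 0⌋, ?_⟩ ⟨⌈z - A s y 0⌉, ?_⟩
  · rw [e]
    linarith [Int.floor_le (z - A s y 0)]
  · rw [e]
    linarith [Int.le_ceil (z - A s y 0)]

theorem Fs_surj (h : MFam F ψ A A' c L) (s : ℝ) : Function.Surjective (Fs F ψ A s) := by
  intro z
  obtain ⟨t, ht⟩ := asurj h s (F.symm z) 0
  refine ⟨ψ t (F.symm z), ?_⟩
  rw [Fs_ext h, ht, h.zero, F.apply_symm_apply]

theorem Fs_inj (h : MFam F ψ A A' c L) (s : ℝ) : Function.Injective (Fs F ψ A s) := by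
  intro x y hxy
  -- the images lie in the same orbit, so the points do
  have h1 : ψ (A s x 0) (F x) = ψ (A s y 0) (F y) := hxy
  have h2 : F y = ψ (A s x 0 - A s y 0) (F x) := by
    have e := congrArg (ψ (-A s y 0)) h1
    rw [← h.add, ← h.add, neg_add_cancel, h.zero] at e
    rw [← e]
    congr 1
    ring
  obtain ⟨t, ht⟩ := asurj h 0 x (A s x 0 - A s y 0)
  rw [← ht, ← h.ext] at h2
  have h3 := F.injective h2
  subst h3
  rw [h.shift, zero_add, h.ext, ← h.add, sub_add_cancel] at h1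
  obtain ⟨j, hj⟩ := (psi_eq (top h) (F x) _ _).1 h1
  have h4 : A s x t = A s x ((0 : ℝ) + ((-j : ℤ) : ℝ)) := by
    rw [a_int'' h]
    push_cast
    linarith
  have h5 := (amono h s x).injective h4
  rw [h5, zero_add]
  exact ((h.free x _).2 ⟨-j, rfl⟩).symm

/-- `F_s` as a homeomorphism -/
noncomputable def fsH (h : MFam F ψ A A' c L) (s : ℝ) : N ≃ₜ N :=
  Continuous.homeoOfEquivCompactToT2 (f := Equiv.ofBijective _ ⟨Fs_inj h s, Fs_surj h s⟩)
    (Fs_cont h s)

theorem fsH_apply (h : MFam F ψ A A' c L) (s : ℝ) (y : N) : fsH h s y = Fs F ψ A s y := rfl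

/-- **Another base parameter.** -/
theorem recenter (h : MFam F ψ A A' c L) (s₀ : ℝ) :
    MFam (fsH h s₀) ψ (fun σ y t => A (s₀ + σ) y t - A s₀ y 0) (fun σ y t => A' (s₀ + σ) y t)
      c L where
  cont := h.cont
  zero := h.zero
  add := h.add
  free := h.free
  ext := fun y t => by
    rw [fsH_apply, Fs_ext h, fsH_apply]
    show _ = ψ (A (s₀ + 0) y t - A s₀ y 0) (ψ (A s₀ y 0) (F y))
    rw [← h.add, add_zero, sub_add_cancel]
  acont := (h.acont.comp ((continuous_const.add continuous_fst).prodMk continuous_snd)).sub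
    (h.acont.comp (continuous_const.prodMk ((continuous_fst.comp continuous_snd).prodMk
      continuous_const)))
  dcont := h.dcont.comp ((continuous_const.add continuous_fst).prodMk continuous_snd)
  der := fun s y t => (h.der _ y t).sub_const _
  L1 := h.L1
  lo := fun s y t => h.lo _ y t
  hi := fun s y t => h.hi _ y t
  aone := fun s y t => by
    show A (s₀ + s) y (t + 1) - _ = A (s₀ + s) y t - _ + 1
    rw [h.aone]
    ring
  azero := fun y => by
    show A (s₀ + 0) y 0 - A s₀ y 0 = 0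
    rw [add_zero, sub_self]
  shift := fun s y u t => by
    show A (s₀ + s) (ψ u y) t - A s₀ (ψ u y) 0 =
      A (s₀ + s) y (t + u) - A s₀ y 0 - (A (s₀ + 0) y u - A s₀ y 0)
    rw [h.shift, h.shift, zero_add, add_zero]
    ring
  cpos := h.cpos
  mono := fun s s' y t hs => by
    have := h.mono (s₀ + s) (s₀ + s') y t (by linarith)
    show c * (s' - s) ≤ A (s₀ + s') y t - A s₀ y 0 - (A (s₀ + s) y t - A s₀ y 0)
    rw [show s₀ + s' - (s₀ + s) = s' - s by ring] at this
    linarith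

theorem co_iter (h : MFam F ψ A A' c L) (s : ℝ) (n : ℕ) (y : N) (t : ℝ) :
    (Fs F ψ A s)^[n] (ψ t y) = ψ (co F A s n y t) (F^[n] y) := by
  induction n with
  | zero => rfl
  | succ n ih =>
    rw [Function.iterate_succ_apply', ih, Fs_ext h, Function.iterate_succ_apply']
    rfl

theorem co_iter0 (h : MFam F ψ A A' c L) (s : ℝ) (n : ℕ) (y : N) :
    (Fs F ψ A s)^[n] y = ψ (co F A s n y 0) (F^[n] y) := by
  have := co_iter h s n y 0
  rwa [h.zero] at this

theorem co_mono_t (h : MFam F ψ A A' c L) (s : ℝ) (n : ℕ) (y : N) : Monotone (co F A s n y) := by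
  induction n with
  | zero => exact fun _ _ hh => hh
  | succ n ih =>
    intro t t' htt
    exact (amono h s _).monotone (ih htt)

theorem co_mono_s (h : MFam F ψ A A' c L) {s s' : ℝ} (hs : s ≤ s') (n : ℕ) (y : N) (t : ℝ) :
    co F A s n y t ≤ co F A s' n y t := by
  induction n with
  | zero => exact le_rfl
  | succ n ih => exact ((amono h s _).monotone ih).trans (ale h hs _ _)

theorem co_int (h : MFam F ψ A A' c L) (s : ℝ) (n : ℕ) (y : N) (t : ℝ) (j : ℤ) :
    co F A s n y (t + j) = co F A s n y t + j := by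
  induction n with
  | zero => rfl
  | succ n ih =>
    show A s (F^[n] y) (co F A s n y (t + j)) = A s (F^[n] y) (co F A s n y t) + j
    rw [ih, a_int'' h]

theorem co_add (s : ℝ) (n k : ℕ) (y : N) (t : ℝ) :
    co F A s (n + k) y t = co F A s k (F^[n] y) (co F A s n y t) := by
  induction k with
  | zero => rfl
  | succ k ih =>
    show A s (F^[n + k] y) (co F A s (n + k) y t) = A s (F^[k] (F^[n] y)) _
    rw [ih, ← Function.iterate_add_apply, add_comm k n]

theorem co_cont_s (h : MFam F ψ A A' c L) (n : ℕ) (y : N) (t : ℝ) :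
    Continuous fun s => co F A s n y t := by
  induction n with
  | zero => exact continuous_const
  | succ n ih => exact h.acont.comp (continuous_id.prodMk (continuous_const.prodMk ih))

theorem co_cont_y (h : MFam F ψ A A' c L) (s : ℝ) (n : ℕ) (t : ℝ) :
    Continuous fun y => co F A s n y t := by
  induction n with
  | zero => exact continuous_const
  | succ n ih =>
    exact h.acont.comp (continuous_const.prodMk ((F.continuous.iterate n).prodMk ih))

theorem iter_shift (h : MFam F ψ A A' c L) (n : ℕ) (y : N) (u : ℝ) :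
    F^[n] (ψ u y) = ψ (co F A 0 n y u) (F^[n] y) := by
  have h1 := co_iter h 0 n y u
  rwa [Fs_zero h] at h1

theorem co_shift (h : MFam F ψ A A' c L) (s : ℝ) (n : ℕ) (y : N) (u t : ℝ) :
    co F A s n (ψ u y) t = co F A s n y (t + u) - co F A 0 n y u := by
  induction n with
  | zero => show t = t + u - u; ring
  | succ n ih =>
    show A s (F^[n] (ψ u y)) (co F A s n (ψ u y) t) =
      A s (F^[n] y) (co F A s n y (t + u)) - A 0 (F^[n] y) (co F A 0 n y u)
    rw [iter_shift h, h.shift, ih, sub_add_cancel]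

/-- a difference of at least one -/
def Ga (F : N ≃ₜ N) (A : ℝ → N → ℝ → ℝ) (s s' : ℝ) (n : ℕ) : Set N :=
  {y | ∀ t, co F A s n y t + 1 ≤ co F A s' n y t}

theorem Ga_closed (h : MFam F ψ A A' c L) (s s' : ℝ) (n : ℕ) :
    IsClosed (Ga F A s s' n) := by
  have : Ga F A s s' n = ⋂ t, {y | co F A s n y t + 1 ≤ co F A s' n y t} := by
    ext y
    simp [Ga]
  rw [this]
  exact isClosed_iInter fun t =>
    isClosed_le ((co_cont_y h s n t).add continuous_const) (co_cont_y h s' n t)

theorem Ga_psi (h : MFam F ψ A A' c L) {s s' : ℝ} {n : ℕ} {y : N} (hy : y ∈ Ga F A s s' n) (u : ℝ) :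
    ψ u y ∈ Ga F A s s' n := by
  intro t
  rw [co_shift h, co_shift h]
  have := hy (t + u)
  linarith

theorem Ga_not (h : MFam F ψ A A' c L) {s s' : ℝ} {n : ℕ} {y : N} (hy : y ∉ Ga F A s s' n) (t : ℝ) :
    co F A s' n y t < co F A s n y t + 2 := by
  simp only [Ga, mem_ofPred_eq, not_forall, not_le] at hy
  obtain ⟨t₀, ht₀⟩ := hy
  have f1 := Int.floor_le (t₀ - t)
  have f2 := Int.lt_floor_add_one (t₀ - t)
  have g1 := co_mono_t h s' n y (show t + ⌊t₀ - t⌋ ≤ t₀ by linarith)
  have g2 := co_mono_t h s n y (show t₀ ≤ t + ((⌊t₀ - t⌋ + 1 : ℤ) : ℝ) by push_cast; linarith)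
  rw [co_int h] at g1 g2
  push_cast at g2
  linarith

theorem Ga_step (h : MFam F ψ A A' c L) {s s' : ℝ} (hs : s ≤ s') {n : ℕ} {y : N}
    (hy : y ∈ Ga F A s s' n) : y ∈ Ga F A s s' (n + 1) := by
  intro t
  show A s (F^[n] y) (co F A s n y t) + 1 ≤ A s' (F^[n] y) (co F A s' n y t)
  have h1 := (amono h s (F^[n] y)).monotone (hy t)
  rw [h.aone] at h1
  have h2 := ale h hs (F^[n] y) (co F A s' n y t)
  linarith

theorem Ga_le (h : MFam F ψ A A' c L) {s s' : ℝ} (hs : s ≤ s') {n k : ℕ} (hnk : n ≤ k) {y : N}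
    (hy : y ∈ Ga F A s s' n) : y ∈ Ga F A s s' k := by
  induction k, hnk using Nat.le_induction with
  | base => exact hy
  | succ k _ ih => exact Ga_step h hs ih

theorem Ga_visit (h : MFam F ψ A A' c L) {s s' : ℝ} (hs : s ≤ s') {n k : ℕ} {y : N}
    (hy : F^[n] y ∈ Ga F A s s' k) : y ∈ Ga F A s s' (n + k) := by
  intro t
  rw [co_add, co_add]
  exact (hy _).trans (co_mono_t h s' k _ (co_mono_s h hs n y t))

theorem Ga_mono (h : MFam F ψ A A' c L) {s s' q q' : ℝ} (h1 : s ≤ q) (h2 : q' ≤ s') (n : ℕ) :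
    Ga F A q q' n ⊆ Ga F A s s' n := by
  intro y hy t
  have a1 := co_mono_s h h1 n y t
  have a2 := co_mono_s h h2 n y t
  have a3 := hy t
  linarith

end

end Pool.Agent.V5helper25.PB
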