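import Pool.Agent.V5helper25.PB.Man

/-!
# MP_3a2b62, Q2: the theorem on vector fields
-/

set_option autoImplicit false
set_option linter.unusedSectionVars false
set_option linter.unusedVariables false

open scoped Manifold ContDiff Topology
open MeasureTheory Filter Set Metric

universe u v

namespace Pool.Agent.V5helper25.PB

open Pool.Agent.H718R2.G Pool.Agent.W564.SC Pool.Agent.N813.CX Pool.Agent.H728R2.FA
  Pool.Agent.TH290.CL

section

variable {n : ℕ} {N : Type u} [TopologicalSpace N] [T2Space N] [ChartedSpace (V n) N]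
  [IsManifold (𝓡 n) ∞ N]

/-- `X` is a vector field of class `C^r`. -/
def FieldC (r : ℕ∞) (X : ∀ y : N, TangentSpace (𝓡 n) y) : Prop :=
  ContMDiff (𝓡 n) (𝓡 n).tangent r (fun y => (⟨y, X y⟩ : TangentBundle (𝓡 n) N))

theorem flow_unique {X : ∀ y : N, TangentSpace (𝓡 n) y} (hX : FieldC 1 X) {Φ Φ' : ℝ → N → N}
    (h : IsFlowOf X Φ) (h' : IsFlowOf X Φ') : Φ = Φ' := by
  have : IsManifold (𝓡 n) 1 N := IsManifold.of_le (m := 1) (n := ∞) (by norm_cast)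
  funext t y
  have e := isMIntegralCurve_Ioo_eq_of_contMDiff_boundaryless (t₀ := 0) hX (h.2 y) (h'.2 y)
    (by show Φ 0 y = Φ' 0 y; rw [h.1.zero, h'.1.zero])
  exact congrFun e t

theorem field_add {Y Z : ∀ y : N, TangentSpace (𝓡 n) y} {g : N → ℝ} {r : ℕ∞} (hY : FieldC r Y)
    (hZ : FieldC r Z) (hg : ContMDiff (𝓡 n) 𝓘(ℝ, ℝ) r g) (s : ℝ) :
    FieldC r (fun x => Y x + (g x + s) • Z x) := by
  have h1 : ContMDiff (𝓡 n) 𝓘(ℝ, ℝ) r (fun x => g x + s) := hg.add contMDiff_const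
  have h2 := ContMDiff.smul_section h1 hZ
  exact ContMDiff.add_section hY h2

theorem FieldC.le {X : ∀ y : N, TangentSpace (𝓡 n) y} {r r' : ℕ∞} (h : FieldC r X) (hr : r' ≤ r) :
    FieldC r' X :=
  ContMDiff.of_le h (WithTop.coe_le_coe.mpr hr)

end

section

variable {n : ℕ} {N : Type u} [TopologicalSpace N] [T2Space N] [CompactSpace N]
  [ChartedSpace (V n) N] [IsManifold (𝓡 n) ∞ N] [MeasurableSpace N] [BorelSpace N]

theorem mainF {ψ : ℝ → N → N} (hψ : IsFlow n N ψ)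
    (hfree : ∀ (y : N) (t : ℝ), ψ t y = y ↔ ∃ j : ℤ, t = j)
    {Z : ∀ y : N, TangentSpace (𝓡 n) y} (hZ : FieldC 1 Z) (hψZ : IsFlowOf Z ψ)
    {Y : ∀ y : N, TangentSpace (𝓡 n) y} (hY : FieldC 1 Y) {φ : ℝ → N → N} (hφY : IsFlowOf Y φ)
    (hcomm : ∀ s t y, φ s (ψ t y) = ψ t (φ s y)) {g : N → ℝ} (hg : ContMDiff (𝓡 n) 𝓘(ℝ, ℝ) 1 g)
    {B : Type v} [MetricSpace B] [MeasurableSpace B] [BorelSpace B] {π : N → B} {β : ℝ → B → B}
    (hπ : OrbitFlow φ ψ π β) {μ : Measure N} [IsFiniteMeasure μ] (hq : ∀ t, μ.map (ψ t) ≪ μ)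
    {k : ℕ} {m : Fin k → Measure B} (hm : ∀ i, IsProbabilityMeasure (m i))
    (erg : ∀ i, ErgFlow β (m i)) (h1 : μ.map π ≪ Measure.sum m) (h2 : ∀ i, m i ≪ μ.map π) :
    (∀ s : ℝ, ∃ Φ, IsFlowOf (fun x => Y x + (g x + s) • Z x) Φ) ∧
    ∀ᶠ s in residual ℝ, ∀ Φ, IsFlowOf (fun x => Y x + (g x + s) • Z x) Φ →
      FiniteAttractorsF μ Φ := by
  have : SecondCountableTopology N := ChartedSpace.secondCountable_of_sigmaCompact (V n) N
  let _ : MetricSpace N := TopologicalSpace.metrizableSpaceMetric N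
  obtain ⟨g', hF⟩ := exists_fieldExt hψ hfree hφY.1 hcomm hg
  have hPh : ∀ s, IsFlowOf (fun x => Y x + (g x + s) • Z x) (Ph hF s) := fun s =>
    ⟨Ph_flow hF s, fun y => integral_curve hψ hψZ.2 hφY.2 hcomm (u := Yo hF.fld s y 0)
      (Yo_der hF.fld s y 0)⟩
  refine ⟨fun s => ⟨_, hPh s⟩, ?_⟩
  filter_upwards [flowsTop hF hπ hm erg hq h1 h2] with s hs Φ hΦ
  rw [flow_unique (field_add hY hZ hg s) hΦ (hPh s)]
  exact hs

end

end Pool.Agent.V5helper25.PB
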