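import Mathlib
import Pool.Agent.V5helper25.PB.FDef

/-!
# MP_3a2b62: scalar differential equations over a flow
-/

set_option autoImplicit false
set_option linter.unusedSectionVars false
set_option linter.unusedVariables false

open scoped Topology NNReal
open Filter Set Metric

universe u

namespace Pool.Agent.V5helper25.PB



/-- global solutions -/
theorem exists_glob (v : ℝ → ℝ → ℝ) (hc : ∀ u, Continuous fun t => v t u) {K M : ℝ≥0}
    (hK : ∀ t, LipschitzWith K (v t)) (hM : ∀ t u, ‖v t u‖ ≤ M) (y : ℝ) :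
    ∃ u : ℝ → ℝ, u 0 = y ∧ ∀ t, HasDerivAt u (v t (u t)) t := by
  have hex : ∀ n : ℕ, ∃ α : ℝ → ℝ, α 0 = y ∧
      ∀ t ∈ Ioo (-((n : ℝ) + 1)) ((n : ℝ) + 1), HasDerivAt α (v t (α t)) t := by
    intro n
    have hn : (0 : ℝ) < (n : ℝ) + 1 := by positivity
    have hpl : IsPicardLindelof v (tmin := -((n : ℝ) + 1)) (tmax := (n : ℝ) + 1)
        ⟨0, by constructor <;> linarith⟩ y (M * ((n : ℝ≥0) + 1)) 0 M K :=
      { lipschitzOnWith := fun t _ => (hK t).lipschitzOnWith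
        continuousOn := fun u _ => (hc u).continuousOn
        norm_le := fun t _ u _ => hM t u
        mul_max_le := by
          simp }
    obtain ⟨α, h0, h1⟩ := hpl.exists_eq_forall_mem_Icc_hasDerivWithinAt₀
    refine ⟨α, h0, fun t ht => ?_⟩
    exact (h1 t (Ioo_subset_Icc_self ht)).hasDerivAt (Icc_mem_nhds ht.1 ht.2)
  choose α hα0 hα using hex
  have huniq : ∀ (n k : ℕ) (t : ℝ), |t| < (n : ℝ) + 1 → |t| < (k : ℝ) + 1 → α n t = α k t := by
    intro n k t hn hk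
    have h1 : EqOn (α n) (α k) (Ioo (-(min ((n : ℝ) + 1) ((k : ℝ) + 1)))
        (min ((n : ℝ) + 1) ((k : ℝ) + 1))) := by
      refine ODE_solution_unique_of_mem_Ioo (v := v) (s := fun _ => univ) (K := K) (t₀ := 0)
        (fun t _ => (hK t).lipschitzOnWith) ?_ ?_ ?_ ?_
      · have : (0 : ℝ) < min ((n : ℝ) + 1) ((k : ℝ) + 1) := lt_min (by positivity) (by positivity)
        constructor <;> linarith
      · intro t ht
        refine ⟨hα n t ⟨?_, ht.2.trans_le (min_le_left _ _)⟩, mem_univ _⟩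
        exact lt_of_le_of_lt (neg_le_neg (min_le_left _ _)) ht.1
      · intro t ht
        refine ⟨hα k t ⟨?_, ht.2.trans_le (min_le_right _ _)⟩, mem_univ _⟩
        exact lt_of_le_of_lt (neg_le_neg (min_le_right _ _)) ht.1
      · rw [hα0, hα0]
    exact h1 (abs_lt.1 (lt_min hn hk))
  have hceil : ∀ t : ℝ, |t| < (⌈|t|⌉₊ : ℝ) + 1 := fun t => by
    have := Nat.le_ceil |t|
    linarith
  refine ⟨fun t => α ⌈|t|⌉₊ t, ?_, fun t => ?_⟩
  · exact hα0 _
  · have h1 : (fun t => α ⌈|t|⌉₊ t) =ᶠ[𝓝 t] α ⌈|t|⌉₊ := by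
      have h2 : ∀ᶠ t' in 𝓝 t, |t'| < (⌈|t|⌉₊ : ℝ) + 1 :=
        continuous_abs.continuousAt.eventually (gt_mem_nhds (hceil t))
      filter_upwards [h2] with t' ht'
      exact huniq _ _ t' (hceil t') ht'
    exact (hα _ t (abs_lt.1 (hceil t))).congr_of_eventuallyEq h1

theorem glob_unique {v : ℝ → ℝ → ℝ} {K : ℝ≥0} (hK : ∀ t, LipschitzWith K (v t)) {u w : ℝ → ℝ}
    (hu : ∀ t, HasDerivAt u (v t (u t)) t) (hw : ∀ t, HasDerivAt w (v t (w t)) t)
    (h : u 0 = w 0) : u = w :=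
  ODE_solution_unique_univ (v := v) (s := fun _ => univ) (K := K) (t₀ := 0)
    (fun t => (hK t).lipschitzOnWith) (fun t => ⟨hu t, mem_univ _⟩) (fun t => ⟨hw t, mem_univ _⟩) h

/-- Gronwall on an interval to the right of `0` -/
theorem gron {v w : ℝ → ℝ → ℝ} {K : ℝ≥0} (hK0 : 0 < K) (hK : ∀ t, LipschitzWith K (v t))
    {u z : ℝ → ℝ} (hu : ∀ t, HasDerivAt u (v t (u t)) t) (hz : ∀ t, HasDerivAt z (w t (z t)) t)
    {T δ ε : ℝ} (h0 : |u 0 - z 0| ≤ δ) (hε : ∀ t ∈ Icc 0 T, ∀ y, |w t y - v t y| ≤ ε) :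
    ∀ t ∈ Icc 0 T, |u t - z t| ≤ (δ + ε / K) * Real.exp (K * T) := by
  intro t ht
  have hc : ∀ {f : ℝ → ℝ} {f' : ℝ → ℝ}, (∀ t, HasDerivAt f (f' t) t) → ContinuousOn f (Icc 0 T) :=
    fun hf t _ => (hf t).continuousAt.continuousWithinAt
  have hT : 0 ≤ T := ht.1.trans ht.2
  have hε0 : 0 ≤ ε := (abs_nonneg _).trans (hε 0 ⟨le_rfl, hT⟩ 0)
  have hδ0 : 0 ≤ δ := (abs_nonneg _).trans h0
  have h1 := dist_le_of_approx_trajectories_ODE (v := v) (K := K) (f := u) (g := z) (a := 0)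
    (b := T) (εf := 0) (εg := ε) (δ := δ) (f' := fun t => v t (u t)) (g' := fun t => w t (z t))
    hK (hc hu) (fun t _ => (hu t).hasDerivWithinAt) (fun t _ => by rw [dist_self])
    (hc hz) (fun t _ => (hz t).hasDerivWithinAt)
    (fun t ht => by rw [Real.dist_eq]; exact hε t (Ico_subset_Icc_self ht) _)
    (by rw [Real.dist_eq]; exact h0) t ht
  rw [Real.dist_eq, zero_add, sub_zero, gronwallBound_of_K_ne_0 (by exact_mod_cast hK0.ne')] at h1
  have hKp : (0 : ℝ) < K := by exact_mod_cast hK0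
  have h2 : Real.exp (K * t) ≤ Real.exp (K * T) :=
    Real.exp_le_exp.2 (mul_le_mul_of_nonneg_left ht.2 hKp.le)
  have h3 : ε / K * (Real.exp (K * t) - 1) ≤ ε / K * Real.exp (K * T) :=
    mul_le_mul_of_nonneg_left (by linarith) (by positivity)
  have h4 := mul_le_mul_of_nonneg_left h2 hδ0
  linarith

end Pool.Agent.V5helper25.PB
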